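import Pool.Agent.Lib_helper21.SB.Co

/-! The functor `N ↦ Hom_A(S, N) = {n | M n = 0}` and resolutions by `add M`. -/

open CategoryTheory CategoryTheory.Abelian MulOpposite

universe u

set_option linter.unusedSectionVars false

namespace Pool.Agent.Lib_helper21.SB

/-- an `S`-module, as a module over `S ⋉ M`. -/
@[nolint unusedArguments]
def Infl (S _M X : Type u) [Ring S] [AddCommGroup X] [Module S X] : Type u := X

/-- to `Infl` -/
def Infl.mk (S M X : Type u) [Ring S] [AddCommGroup X] [Module S X] (x : X) : Infl S M X := x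

/-- from `Infl` -/
def Infl.get {S M X : Type u} [Ring S] [AddCommGroup X] [Module S X] (x : Infl S M X) : X := x

section
variable (S M : Type u) [Ring S] [AddCommGroup M] [Module S M] [Module Sᵐᵒᵖ M]
  [SMulCommClass S Sᵐᵒᵖ M]

section
variable (X : Type u) [AddCommGroup X] [Module S X]

instance : AddCommGroup (Infl S M X) := inferInstanceAs (AddCommGroup X)

instance : SMul (TrivSqZeroExt S M) (Infl S M X) :=
  ⟨fun a x => Infl.mk S M X (a.fst • Infl.get x)⟩

theorem Infl.smul_def (a : TrivSqZeroExt S M) (x : Infl S M X) :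
    a • x = Infl.mk S M X (a.fst • Infl.get x) := rfl

instance : Module (TrivSqZeroExt S M) (Infl S M X) where
  one_smul x := by
    rw [Infl.smul_def, TrivSqZeroExt.fst_one, one_smul]
    rfl
  mul_smul a b x := by
    rw [Infl.smul_def, TrivSqZeroExt.fst_mul, mul_smul]
    rfl
  smul_zero a := smul_zero (A := X) a.fst
  smul_add a x y := smul_add (A := X) a.fst (Infl.get x) (Infl.get y)
  add_smul a b x := by
    rw [Infl.smul_def, TrivSqZeroExt.fst_add, add_smul]
    rfl
  zero_smul x := by
    rw [Infl.smul_def, TrivSqZeroExt.fst_zero, zero_smul]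
    rfl

end

/-- the elements killed by `M`, as a submodule. -/
def annSub (N : Type u) [AddCommGroup N] [Module (TrivSqZeroExt S M) N] :
    Submodule (TrivSqZeroExt S M) N where
  carrier := {n | ∀ m : M, (TrivSqZeroExt.inr m : TrivSqZeroExt S M) • n = 0}
  add_mem' := fun {a b} ha hb m => by rw [smul_add, ha m, hb m, add_zero]
  zero_mem' := fun m => smul_zero _
  smul_mem' := fun c x hx m => by
    have h1 : (TrivSqZeroExt.inr m : TrivSqZeroExt S M) * c =
        TrivSqZeroExt.inr (op c.fst • m) := by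
      ext
      · simp
      · simp
    rw [← mul_smul, h1]
    exact hx _

/-- `Hom_A(S, N)`, as an `S`-module. -/
def Ann (N : Type u) [AddCommGroup N] [Module (TrivSqZeroExt S M) N] : Type u := annSub S M N

section
variable (N : Type u) [AddCommGroup N] [Module (TrivSqZeroExt S M) N]

instance : AddCommGroup (Ann S M N) := inferInstanceAs (AddCommGroup (annSub S M N))

instance : Module S (Ann S M N) :=
  Module.compHom (annSub S M N) (TrivSqZeroExt.inlHom S M)

/-- the inclusion -/
def Ann.val {N : Type u} [AddCommGroup N] [Module (TrivSqZeroExt S M) N] (x : Ann S M N) : N :=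
  (show annSub S M N from x).1

end

variable {S M}
variable {N N' N'' : Type u} [AddCommGroup N] [Module (TrivSqZeroExt S M) N]
  [AddCommGroup N'] [Module (TrivSqZeroExt S M) N'] [AddCommGroup N'']
  [Module (TrivSqZeroExt S M) N'']

theorem Ann.ext {x y : Ann S M N} (h : Ann.val S M x = Ann.val S M y) : x = y := Subtype.ext h

theorem Ann.val_add (x y : Ann S M N) : Ann.val S M (x + y) = Ann.val S M x + Ann.val S M y := rfl

theorem Ann.val_zero : Ann.val S M (0 : Ann S M N) = 0 := rfl

theorem Ann.val_smul (s : S) (x : Ann S M N) :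
    Ann.val S M (s • x) = (TrivSqZeroExt.inl s : TrivSqZeroExt S M) • Ann.val S M x := rfl

theorem Ann.kill (x : Ann S M N) (m : M) :
    (TrivSqZeroExt.inr m : TrivSqZeroExt S M) • Ann.val S M x = 0 :=
  (show annSub S M N from x).2 m

/-- `Ann` on maps. -/
def annMap (g : N →ₗ[TrivSqZeroExt S M] N') : Ann S M N →ₗ[S] Ann S M N' where
  toFun x := (⟨g (Ann.val S M x), fun m => by rw [← g.map_smul, Ann.kill, map_zero]⟩ :
    annSub S M N')
  map_add' x y := Subtype.ext (map_add g _ _)
  map_smul' s x := Subtype.ext (g.map_smul _ _)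

theorem annMap_val (g : N →ₗ[TrivSqZeroExt S M] N') (x : Ann S M N) :
    Ann.val S M (annMap g x) = g (Ann.val S M x) := rfl

/-- the unit of `S` -/
def uno (S M : Type u) [Ring S] : Infl S M S := Infl.mk S M S 1

/-- `n ↦ (1 ↦ n)` -/
def homOfAnn (x : Ann S M N) : Infl S M S →ₗ[TrivSqZeroExt S M] N where
  toFun s := (TrivSqZeroExt.inl (Infl.get s) : TrivSqZeroExt S M) • Ann.val S M x
  map_add' s t := by
    rw [← add_smul]
    exact congrArg (· • Ann.val S M x) (TrivSqZeroExt.inl_add M (Infl.get s) (Infl.get t))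
  map_smul' a s := by
    rw [RingHom.id_apply, ← mul_smul]
    have h1 : a * (TrivSqZeroExt.inl (Infl.get s) : TrivSqZeroExt S M) =
        TrivSqZeroExt.inl (a.fst * Infl.get s) +
          TrivSqZeroExt.inr (op (Infl.get s) • a.snd) := by
      apply TrivSqZeroExt.ext
      · simp
      · simp
    rw [h1, add_smul, Ann.kill, add_zero]
    rfl

theorem homOfAnn_one (x : Ann S M N) : homOfAnn x (uno S M) = Ann.val S M x := by
  change (TrivSqZeroExt.inl (1 : S) : TrivSqZeroExt S M) • Ann.val S M x = _
  rw [TrivSqZeroExt.inl_one, one_smul]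

/-- `h ↦ h(1)` -/
def annOfHom (h : Infl S M S →ₗ[TrivSqZeroExt S M] N) : Ann S M N :=
  (⟨h (uno S M), fun m => by
    rw [← h.map_smul, Infl.smul_def, TrivSqZeroExt.fst_inr, zero_smul]
    exact map_zero h⟩ : annSub S M N)

theorem annOfHom_val (h : Infl S M S →ₗ[TrivSqZeroExt S M] N) :
    Ann.val S M (annOfHom h) = h (uno S M) := rfl

theorem hom_ext_one {h h' : Infl S M S →ₗ[TrivSqZeroExt S M] N}
    (e : h (uno S M) = h' (uno S M)) : h = h' := by
  ext s
  have h1 : s = (TrivSqZeroExt.inl (Infl.get s) : TrivSqZeroExt S M) • uno S M := by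
    rw [Infl.smul_def, TrivSqZeroExt.fst_inl]
    exact (mul_one (Infl.get s)).symm
  rw [h1, h.map_smul, h'.map_smul, e]

theorem hom_lift_of_ann (g : N →ₗ[TrivSqZeroExt S M] N')
    (hg : Function.Surjective (annMap (S := S) (M := M) g))
    (φ : Infl S M S →ₗ[TrivSqZeroExt S M] N') :
    ∃ ψ : Infl S M S →ₗ[TrivSqZeroExt S M] N, g ∘ₗ ψ = φ := by
  obtain ⟨x, hx⟩ := hg (annOfHom φ)
  refine ⟨homOfAnn x, hom_ext_one ?_⟩
  rw [LinearMap.comp_apply, homOfAnn_one, ← annMap_val, hx, annOfHom_val]

theorem ann_surjective_of_lift (g : N →ₗ[TrivSqZeroExt S M] N')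
    (hg : ∀ φ : Infl S M S →ₗ[TrivSqZeroExt S M] N',
      ∃ ψ : Infl S M S →ₗ[TrivSqZeroExt S M] N, g ∘ₗ ψ = φ) :
    Function.Surjective (annMap (S := S) (M := M) g) := by
  intro y
  obtain ⟨ψ, hψ⟩ := hg (homOfAnn y)
  refine ⟨annOfHom ψ, Ann.ext ?_⟩
  rw [annMap_val, annOfHom_val, ← homOfAnn_one, ← hψ]
  rfl

theorem annMap_injective {g : N →ₗ[TrivSqZeroExt S M] N'} (hg : Function.Injective g) :
    Function.Injective (annMap (S := S) (M := M) g) := by
  intro x y h
  exact Ann.ext (hg (congrArg (Ann.val S M) h))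

theorem annMap_exact {f : N →ₗ[TrivSqZeroExt S M] N'} {g : N' →ₗ[TrivSqZeroExt S M] N''}
    (h : Function.Exact f g) (hf : Function.Injective f) :
    Function.Exact (annMap (S := S) (M := M) f) (annMap g) := by
  intro x
  constructor
  · intro hx
    obtain ⟨u, hu⟩ := (h (Ann.val S M x)).1 (congrArg (Ann.val S M) hx)
    have hu2 : ∀ m : M, (TrivSqZeroExt.inr m : TrivSqZeroExt S M) • u = 0 := by
      intro m
      apply hf
      rw [f.map_smul, hu, Ann.kill, map_zero]
    exact ⟨(⟨u, hu2⟩ : annSub S M N), Ann.ext hu⟩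
  · rintro ⟨y, rfl⟩
    exact Ann.ext ((h _).2 ⟨_, rfl⟩)

/-- `Ann (Co U) = U`. -/
def annCo (U : Type u) [AddCommGroup U] [Module S U] : U ≃ₗ[S] Ann S M (Co S M U) where
  toFun u := (⟨((u, 0) : Co S M U), fun m => by
    apply Co.ext
    · change (0 : S) • u + 0 = 0
      rw [zero_smul, zero_add]
    · intro m'
      rfl⟩ : annSub S M (Co S M U))
  invFun x := (Ann.val S M x).1
  map_add' u v := by
    apply Ann.ext
    apply Co.ext
    · rfl
    · intro m
      exact (add_zero (0 : U)).symm
  map_smul' s u := by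
    apply Ann.ext
    apply Co.ext
    · change s • u = s • u + 0
      rw [add_zero]
    · intro m
      rfl
  left_inv u := rfl
  right_inv x := by
    apply Ann.ext
    apply Co.ext
    · rfl
    · intro m
      have h1 := congrArg (fun z : Co S M U => z.1) (Ann.kill x m)
      change 0 = (Ann.val S M x).2 m
      simp only [Co.smul_fst, TrivSqZeroExt.fst_inr, TrivSqZeroExt.snd_inr, zero_smul, zero_add]
        at h1
      exact h1.symm

theorem annMap_coMap_surjective {U V : Type u} [AddCommGroup U] [Module S U] [AddCommGroup V]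
    [Module S V] {g : U →ₗ[S] V} (hg : Function.Surjective g) :
    Function.Surjective (annMap (S := S) (M := M) (coMap (M := M) g)) := by
  intro y
  obtain ⟨v, rfl⟩ := (annCo (M := M) V).surjective y
  obtain ⟨u, rfl⟩ := hg v
  refine ⟨annCo (M := M) U u, ?_⟩
  apply Ann.ext
  apply Co.ext
  · rfl
  · intro m
    exact map_zero g

/-- (4): `Ext_A^i(S, Co U) = 0` for `i > 0` if `Ext_S^i(M, U) = 0` for `i > 0`. -/
theorem van_co (i : ℕ) : ∀ (U : Type u) [AddCommGroup U] [Module S U], Perp S M U →
    Subsingleton (Ext (ModuleCat.of (TrivSqZeroExt S M) (Infl S M S))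
      (ModuleCat.of (TrivSqZeroExt S M) (Co S M U)) (i + 1)) := by
  induction i with
  | zero =>
    intro U _ _ hp
    obtain ⟨I, _, _, f, hI, hf⟩ := exists_inj S U
    have hex : Function.Exact f (LinearMap.range f).mkQ := LinearMap.exact_iff.2 (Submodule.ker_mkQ _)
    have hg : Function.Surjective (LinearMap.range f).mkQ := Submodule.mkQ_surjective _
    exact perp_of_lift (coMap_exact (M := M) hex hf) (coMap_injective hf)
      (coMap_surjective (M := M) hg (hp.lift hex hf hg)) (co_injective hI)
      (hom_lift_of_ann _ (annMap_coMap_surjective hg))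
  | succ i ih =>
    intro U _ _ hp
    obtain ⟨I, _, _, f, hI, hf⟩ := exists_inj S U
    have hex : Function.Exact f (LinearMap.range f).mkQ := LinearMap.exact_iff.2 (Submodule.ker_mkQ _)
    have hg : Function.Surjective (LinearMap.range f).mkQ := Submodule.mkQ_surjective _
    exact perp_step (coMap_exact (M := M) hex hf) (coMap_injective hf)
      (coMap_surjective (M := M) hg (hp.lift hex hf hg)) (co_injective hI) i
      (ih _ (hp.shift hex hf hg hI))

theorem perp_co {U : Type u} [AddCommGroup U] [Module S U] (hp : Perp S M U) :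
    Perp (TrivSqZeroExt S M) (Infl S M S) (Co S M U) := fun i => van_co i U hp

end

end Pool.Agent.Lib_helper21.SB
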