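import Pool.Agent.Lib_helper21.SB.Perp

/-! The trivial extension `A = S ⋉ M` and the functor `U ↦ Hom_S(A, U)`. -/

open CategoryTheory CategoryTheory.Abelian MulOpposite

universe u

set_option linter.unusedSectionVars false

namespace Pool.Agent.Lib_helper21.SB

/-- enough injectives, for modules. -/
theorem exists_inj (S U : Type u) [Ring S] [AddCommGroup U] [Module S U] :
    ∃ (I : Type u) (_ : AddCommGroup I) (_ : Module S I) (f : U →ₗ[S] I),
      Module.Injective S I ∧ Function.Injective f := by
  refine ⟨(Injective.under (ModuleCat.of S U) : ModuleCat.{u} S), inferInstance, inferInstance,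
    (Injective.ι (ModuleCat.of S U)).hom, ?_, ?_⟩
  · exact (Module.injective_iff_injective_object S _).2
      (inferInstance : Injective (Injective.under (ModuleCat.of S U)))
  · exact (ModuleCat.mono_iff_injective (Injective.ι (ModuleCat.of S U))).1 inferInstance

section
variable (S M : Type u) [Ring S] [AddCommGroup M] [Module S M] [Module Sᵐᵒᵖ M]
  [SMulCommClass S Sᵐᵒᵖ M]

/-- right multiplication by `s`, an endomorphism of the left module `M`. -/
def rho (s : S) : M →ₗ[S] M where
  toFun m := op s • m
  map_add' := smul_add _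
  map_smul' t m := (smul_comm t (op s) m).symm

theorem rho_apply (s : S) (m : M) : rho S M s m = op s • m := rfl

theorem rho_one : rho S M 1 = LinearMap.id := by
  ext m
  rw [rho_apply, op_one, one_smul]
  rfl

theorem rho_mul (s t : S) : rho S M (s * t) = (rho S M t) ∘ₗ (rho S M s) := by
  ext m
  rw [rho_apply, op_mul, mul_smul]
  rfl

theorem rho_add (s t : S) : rho S M (s + t) = rho S M s + rho S M t := by
  ext m
  rw [rho_apply, MulOpposite.op_add, add_smul]
  rfl

theorem rho_zero : rho S M 0 = 0 := by
  ext m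
  rw [rho_apply, MulOpposite.op_zero, zero_smul]
  rfl

/-- `Hom_S(S ⋉ M, U)`. -/
def Co (U : Type u) [AddCommGroup U] [Module S U] : Type u := U × (M →ₗ[S] U)

section
variable (U : Type u) [AddCommGroup U] [Module S U]

instance : AddCommGroup (Co S M U) := inferInstanceAs (AddCommGroup (U × (M →ₗ[S] U)))

instance : SMul (TrivSqZeroExt S M) (Co S M U) :=
  ⟨fun a x => (a.fst • x.1 + x.2 a.snd, x.2 ∘ₗ rho S M a.fst)⟩

variable {S M U}

theorem Co.ext {x y : Co S M U} (h1 : x.1 = y.1) (h2 : ∀ m, x.2 m = y.2 m) : x = y :=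
  Prod.ext h1 (LinearMap.ext h2)

theorem Co.smul_fst (a : TrivSqZeroExt S M) (x : Co S M U) :
    (a • x).1 = a.fst • x.1 + x.2 a.snd := rfl

theorem Co.smul_snd (a : TrivSqZeroExt S M) (x : Co S M U) (m : M) :
    (a • x).2 m = x.2 (op a.fst • m) := rfl

theorem Co.add_fst (x y : Co S M U) : (x + y).1 = x.1 + y.1 := rfl
theorem Co.add_snd (x y : Co S M U) (m : M) : (x + y).2 m = x.2 m + y.2 m := rfl
theorem Co.zero_fst : (0 : Co S M U).1 = 0 := rfl
theorem Co.zero_snd (m : M) : (0 : Co S M U).2 m = 0 := rfl

instance : Module (TrivSqZeroExt S M) (Co S M U) where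
  one_smul x := by
    apply Co.ext
    · rw [Co.smul_fst, TrivSqZeroExt.fst_one, TrivSqZeroExt.snd_one, one_smul, map_zero, add_zero]
    · intro m
      rw [Co.smul_snd, TrivSqZeroExt.fst_one, op_one, one_smul]
  mul_smul a b x := by
    apply Co.ext
    · rw [Co.smul_fst, Co.smul_fst, Co.smul_fst, TrivSqZeroExt.fst_mul, TrivSqZeroExt.snd_mul,
        map_add, map_smul, Co.smul_snd, smul_add, mul_smul, add_assoc]
    · intro m
      rw [Co.smul_snd, Co.smul_snd, Co.smul_snd, TrivSqZeroExt.fst_mul, op_mul, mul_smul]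
  smul_zero a := by
    apply Co.ext
    · rw [Co.smul_fst, Co.zero_fst, Co.zero_snd, smul_zero, add_zero]
    · intro m
      rw [Co.smul_snd, Co.zero_snd, Co.zero_snd]
  smul_add a x y := by
    apply Co.ext
    · rw [Co.add_fst, Co.smul_fst, Co.smul_fst, Co.smul_fst, Co.add_fst, Co.add_snd, smul_add]
      abel
    · intro m
      rw [Co.add_snd, Co.smul_snd, Co.smul_snd, Co.smul_snd, Co.add_snd]
  add_smul a b x := by
    apply Co.ext
    · rw [Co.add_fst, Co.smul_fst, Co.smul_fst, Co.smul_fst, TrivSqZeroExt.fst_add,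
        TrivSqZeroExt.snd_add, add_smul, map_add]
      abel
    · intro m
      rw [Co.add_snd, Co.smul_snd, Co.smul_snd, Co.smul_snd, TrivSqZeroExt.fst_add, MulOpposite.op_add,
        add_smul, map_add]
  zero_smul x := by
    apply Co.ext
    · rw [Co.smul_fst, TrivSqZeroExt.fst_zero, TrivSqZeroExt.snd_zero, zero_smul, map_zero,
        add_zero, Co.zero_fst]
    · intro m
      rw [Co.smul_snd, TrivSqZeroExt.fst_zero, MulOpposite.op_zero, zero_smul, map_zero, Co.zero_snd]

end

variable {S M}
variable {U V W : Type u} [AddCommGroup U] [Module S U] [AddCommGroup V] [Module S V]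
  [AddCommGroup W] [Module S W]

/-- `Co` on maps. -/
def coMap (g : U →ₗ[S] V) : Co S M U →ₗ[TrivSqZeroExt S M] Co S M V where
  toFun x := (g x.1, g ∘ₗ x.2)
  map_add' x y := by
    apply Co.ext
    · exact map_add g _ _
    · intro m
      exact map_add g _ _
  map_smul' a x := by
    apply Co.ext
    · change g (a.fst • x.1 + x.2 a.snd) = a.fst • g x.1 + g (x.2 a.snd)
      rw [map_add, map_smul]
    · intro m
      rfl

theorem coMap_fst (g : U →ₗ[S] V) (x : Co S M U) : (coMap g x).1 = g x.1 := rfl
theorem coMap_snd (g : U →ₗ[S] V) (x : Co S M U) (m : M) : (coMap g x).2 m = g (x.2 m) := rfl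

theorem coMap_injective {g : U →ₗ[S] V} (hg : Function.Injective g) :
    Function.Injective (coMap (M := M) g) := by
  intro x y h
  apply Co.ext
  · exact hg (congrArg (fun z : Co S M V => z.1) h)
  · intro m
    exact hg (congrArg (fun z : Co S M V => z.2 m) h)

theorem coMap_exact {f : U →ₗ[S] V} {g : V →ₗ[S] W} (h : Function.Exact f g)
    (hf : Function.Injective f) : Function.Exact (coMap (M := M) f) (coMap g) := by
  intro x
  constructor
  · intro hx
    obtain ⟨u, hu⟩ := (h x.1).1 (congrArg (fun z : Co S M W => z.1) hx)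
    have h2 : ∀ m, ∃ u, f u = x.2 m := fun m =>
      (h (x.2 m)).1 (congrArg (fun z : Co S M W => z.2 m) hx)
    choose F hF using h2
    let F' : M →ₗ[S] U :=
      { toFun := F
        map_add' := fun a b => hf (by rw [map_add, hF, hF, hF, map_add])
        map_smul' := fun s a => hf (by rw [map_smul, hF, hF, map_smul, RingHom.id_apply]) }
    refine ⟨(u, F'), ?_⟩
    apply Co.ext
    · exact hu
    · intro m
      exact hF m
  · rintro ⟨y, rfl⟩
    apply Co.ext
    · exact (h _).2 ⟨_, rfl⟩
    · intro m
      exact (h _).2 ⟨_, rfl⟩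

theorem coMap_surjective {g : U →ₗ[S] V} (hg : Function.Surjective g)
    (hl : ∀ φ : M →ₗ[S] V, ∃ ψ : M →ₗ[S] U, g ∘ₗ ψ = φ) :
    Function.Surjective (coMap (M := M) g) := by
  intro y
  obtain ⟨u, hu⟩ := hg y.1
  obtain ⟨ψ, hψ⟩ := hl y.2
  refine ⟨(u, ψ), ?_⟩
  apply Co.ext
  · exact hu
  · intro m
    exact LinearMap.congr_fun hψ m

/-- (1): `Co` of an injective module is injective. -/
theorem co_injective (hU : Module.Injective S U) :
    Module.Injective (TrivSqZeroExt S M) (Co S M U) := by
  refine ⟨fun X Y _ _ _ _ f hf g => ?_⟩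
  let _ : Module S X := Module.compHom X (TrivSqZeroExt.inlHom S M)
  let _ : Module S Y := Module.compHom Y (TrivSqZeroExt.inlHom S M)
  have hX : ∀ (s : S) (x : X), s • x = (TrivSqZeroExt.inl s : TrivSqZeroExt S M) • x :=
    fun _ _ => rfl
  have hY : ∀ (s : S) (x : Y), s • x = (TrivSqZeroExt.inl s : TrivSqZeroExt S M) • x :=
    fun _ _ => rfl
  let f1 : X →ₗ[S] Y :=
    { toFun := f
      map_add' := f.map_add
      map_smul' := fun s x => by rw [hX, hY, f.map_smul, RingHom.id_apply] }
  let g1 : X →ₗ[S] U :=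
    { toFun := fun x => (g x).1
      map_add' := fun x y => by rw [map_add, Co.add_fst]
      map_smul' := fun s x => by
        rw [hX, g.map_smul, Co.smul_fst, TrivSqZeroExt.fst_inl, TrivSqZeroExt.snd_inl, map_zero,
          add_zero, RingHom.id_apply] }
  obtain ⟨h1, hh⟩ := hU.out f1 hf g1
  have e1 : ∀ (s : S) (m : M) (y : Y), (TrivSqZeroExt.inr (s • m) : TrivSqZeroExt S M) • y =
      s • ((TrivSqZeroExt.inr m : TrivSqZeroExt S M) • y) := fun s m y => by
    rw [hY, ← mul_smul, TrivSqZeroExt.inl_mul_inr]
  let h : Y →ₗ[TrivSqZeroExt S M] Co S M U :=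
    { toFun := fun y => (h1 y,
        { toFun := fun m => h1 ((TrivSqZeroExt.inr m : TrivSqZeroExt S M) • y)
          map_add' := fun m m' => by
            rw [TrivSqZeroExt.inr_add, add_smul, map_add]
          map_smul' := fun s m => by
            rw [e1, map_smul, RingHom.id_apply] })
      map_add' := fun y y' => by
        apply Co.ext
        · exact map_add h1 y y'
        · intro m
          change h1 _ = h1 _ + h1 _
          rw [smul_add, map_add]
      map_smul' := fun a y => by
        apply Co.ext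
        · change h1 (a • y) = a.fst • h1 y + h1 ((TrivSqZeroExt.inr a.snd : TrivSqZeroExt S M) • y)
          rw [← map_smul, hY, ← map_add, ← add_smul, TrivSqZeroExt.inl_fst_add_inr_snd_eq]
        · intro m
          change h1 ((TrivSqZeroExt.inr m : TrivSqZeroExt S M) • (a • y)) =
            h1 ((TrivSqZeroExt.inr (op a.fst • m) : TrivSqZeroExt S M) • y)
          rw [← mul_smul]
          congr 2
          ext
          · simp
          · simp }
  refine ⟨h, fun x => ?_⟩
  apply Co.ext
  · exact hh x
  · intro m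
    change h1 ((TrivSqZeroExt.inr m : TrivSqZeroExt S M) • f x) = (g x).2 m
    rw [← f.map_smul]
    change h1 (f1 _) = _
    rw [hh]
    change (g _).1 = _
    rw [g.map_smul, Co.smul_fst, TrivSqZeroExt.fst_inr, TrivSqZeroExt.snd_inr, zero_smul,
      zero_add]

/-- (3): the injective dimension of `Co U`. -/
theorem id_co (n : ℕ) : ∀ (U : Type u) [AddCommGroup U] [Module S U], Perp S M U →
    HasInjectiveDimensionLT (ModuleCat.of S U) (n + 1) →
    HasInjectiveDimensionLT (ModuleCat.of (TrivSqZeroExt S M) (Co S M U)) (n + 1) := by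
  induction n with
  | zero =>
    intro U _ _ _ h
    rw [zero_add, Pool.Agent.Lib_helper54.GSC.id_one_iff] at h ⊢
    exact co_injective h
  | succ n ih =>
    intro U _ _ hp h
    obtain ⟨I, _, _, f, hI, hf⟩ := exists_inj S U
    have hex : Function.Exact f (LinearMap.range f).mkQ := LinearMap.exact_iff.2 (Submodule.ker_mkQ _)
    have hg : Function.Surjective (LinearMap.range f).mkQ := Submodule.mkQ_surjective _
    have hW : HasInjectiveDimensionLT (ModuleCat.of S (I ⧸ LinearMap.range f)) (n + 1) :=
      ((cx_exact hex hf hg).hasInjectiveDimensionLT_X₃_iff n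
        ((Module.injective_iff_injective_object S I).1 hI)).2 h
    have hWp : Perp S M (I ⧸ LinearMap.range f) := hp.shift hex hf hg hI
    have h2 := ih _ hWp hW
    have hex' := coMap_exact (M := M) hex hf
    have hg' := coMap_surjective (M := M) hg (hp.lift hex hf hg)
    exact ((cx_exact hex' (coMap_injective hf) hg').hasInjectiveDimensionLT_X₃_iff n
        ((Module.injective_iff_injective_object _ _).1 (co_injective hI))).1 h2

/-- the map `A → Co M`. -/
def toCo : TrivSqZeroExt S M →ₗ[TrivSqZeroExt S M] Co S M M where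
  toFun a := (a.snd, rho S M a.fst)
  map_add' a b := by
    apply Co.ext
    · rfl
    · intro m
      change rho S M (a + b).fst m = rho S M a.fst m + rho S M b.fst m
      rw [TrivSqZeroExt.fst_add, rho_add]
      rfl
  map_smul' a b := by
    apply Co.ext
    · change (a * b).snd = a.fst • b.snd + op b.fst • a.snd
      rw [TrivSqZeroExt.snd_mul]
    · intro m
      change rho S M (a * b).fst m = op b.fst • (op a.fst • m)
      rw [TrivSqZeroExt.fst_mul, rho_apply, op_mul, mul_smul]

/-- (2): if `S → End_S(M)^op` is bijective then `A = Co M`. -/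
noncomputable def coSelf (hb : Function.Bijective (rho S M)) :
    TrivSqZeroExt S M ≃ₗ[TrivSqZeroExt S M] Co S M M :=
  LinearEquiv.ofBijective toCo ⟨fun a b h => by
      ext
      · exact hb.1 (congrArg (fun z : Co S M M => z.2) h)
      · exact congrArg (fun z : Co S M M => z.1) h, fun x => by
      obtain ⟨s, hs⟩ := hb.2 x.2
      refine ⟨TrivSqZeroExt.inl s + TrivSqZeroExt.inr x.1, ?_⟩
      apply Co.ext
      · change (TrivSqZeroExt.inl s + TrivSqZeroExt.inr x.1 : TrivSqZeroExt S M).snd = x.1
        simp
      · intro m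
        change rho S M (TrivSqZeroExt.inl s + TrivSqZeroExt.inr x.1 : TrivSqZeroExt S M).fst m = _
        rw [← hs]
        simp⟩

end

end Pool.Agent.Lib_helper21.SB
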