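import Pool.Agent.Lib_helper21.SB.Prod

/-! Cycles of partial cotilting modules. -/

open CategoryTheory CategoryTheory.Abelian MulOpposite Pool.Agent.Lib_helper54.GSC

universe u

set_option linter.unusedSectionVars false

namespace Pool.Agent.Lib_helper21.SB

section
variable (k : Type u) [Field k] {ι : Type} [Fintype ι] [DecidableEq ι] {S M : ι → Type u}
  [∀ i, Ring (S i)] [∀ i, Algebra k (S i)] [∀ i, AddCommGroup (M i)] [∀ i, Module k (M i)]
  [∀ i, Module (S i) (M i)] [∀ i, IsScalarTower k (S i) (M i)]

/-- the endomorphism algebra of the product module -/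
noncomputable def endPi (σ : Equiv.Perm ι)
    (e : ∀ i, S (σ i) ≃ₐ[k] (Module.End (S i) (M i))ᵐᵒᵖ) :
    (∀ i, S i) ≃ₐ[k] (Module.End (∀ i, S i) (∀ i, M i))ᵐᵒᵖ :=
  AlgEquiv.ofBijective
    ({ toFun := fun s => op (piMap fun i => unop (e i (s (σ i))))
       map_one' := by
         apply unop_injective
         apply LinearMap.ext
         intro x
         funext i
         change (unop (e i ((1 : ∀ j, S j) (σ i)))) (x i) = x i
         rw [Pi.one_apply, map_one]
         rfl
       map_mul' := fun s t => by
         apply unop_injective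
         apply LinearMap.ext
         intro x
         funext i
         change (unop (e i ((s * t) (σ i)))) (x i) =
           (unop (e i (t (σ i)))) ((unop (e i (s (σ i)))) (x i))
         rw [Pi.mul_apply, map_mul]
         rfl
       map_zero' := by
         apply unop_injective
         apply LinearMap.ext
         intro x
         funext i
         change (unop (e i ((0 : ∀ j, S j) (σ i)))) (x i) = 0
         rw [Pi.zero_apply, map_zero]
         rfl
       map_add' := fun s t => by
         apply unop_injective
         apply LinearMap.ext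
         intro x
         funext i
         change (unop (e i ((s + t) (σ i)))) (x i) =
           (unop (e i (s (σ i)))) (x i) + (unop (e i (t (σ i)))) (x i)
         rw [Pi.add_apply, map_add]
         rfl
       commutes' := fun r => by
         apply unop_injective
         apply LinearMap.ext
         intro x
         funext i
         change (unop (e i ((algebraMap k (∀ j, S j) r) (σ i)))) (x i) = r • x i
         rw [Pi.algebraMap_apply, AlgEquiv.commutes]
         rfl } : (∀ i, S i) →ₐ[k] (Module.End (∀ i, S i) (∀ i, M i))ᵐᵒᵖ)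
    ⟨fun s t h => by
      funext j
      obtain ⟨i, rfl⟩ := σ.surjective j
      apply (e i).injective
      apply unop_injective
      have h1 := congrArg (fun z : (Module.End (∀ i, S i) (∀ i, M i))ᵐᵒᵖ =>
        comp (unop z : (∀ i, M i) →ₗ[∀ i, S i] (∀ i, M i)) i) h
      change comp (piMap fun i => unop (e i (s (σ i)))) i =
        comp (piMap fun i => unop (e i (t (σ i)))) i at h1
      rwa [comp_piMap, comp_piMap] at h1, fun z => by
      let φ : (∀ i, M i) →ₗ[∀ i, S i] (∀ i, M i) := unop z
      let g : ∀ i, S (σ i) := fun i => (e i).symm (op (comp φ i))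
      refine ⟨(Equiv.piCongrLeft S σ) g, ?_⟩
      apply unop_injective
      change piMap (fun i => unop (e i ((Equiv.piCongrLeft S σ) g (σ i)))) = φ
      have h1 : (fun i => unop (e i ((Equiv.piCongrLeft S σ) g (σ i)))) = comp φ := by
        funext i
        rw [Equiv.piCongrLeft_apply_apply]
        exact congrArg unop ((e i).apply_symm_apply (op (comp φ i)))
      rw [h1, piMap_comp]⟩

end

/-- cycles of length one ⇒ all cycles. -/
theorem cycle_of_one (k : Type u) [Field k]
    (H : ∀ (S M : Type u) [Ring S] [Algebra k S] [Module.Finite k S] [AddCommGroup M]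
      [Module k M] [Module S M] [IsScalarTower k S M] [Module.Finite S M],
      PartialCotilting S M → Nonempty (S ≃ₐ[k] (Module.End S M)ᵐᵒᵖ) → Cotilting S M)
    {ι : Type} [Fintype ι] [DecidableEq ι] (S M : ι → Type u)
    [∀ i, Ring (S i)] [∀ i, Algebra k (S i)] [∀ i, Module.Finite k (S i)]
    [∀ i, AddCommGroup (M i)] [∀ i, Module k (M i)] [∀ i, Module (S i) (M i)]
    [∀ i, IsScalarTower k (S i) (M i)] [∀ i, Module.Finite (S i) (M i)] (σ : Equiv.Perm ι)
    (hM : ∀ i, PartialCotilting (S i) (M i))
    (he : ∀ i, Nonempty (S (σ i) ≃ₐ[k] (Module.End (S i) (M i))ᵐᵒᵖ)) (i : ι) :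
    Cotilting (S i) (M i) := by
  have hMk : ∀ i, Module.Finite k (M i) := fun i => Module.Finite.trans (S i) (M i)
  have hfin : Module.Finite (∀ i, S i) (∀ i, M i) :=
    Module.Finite.of_restrictScalars_finite k (∀ i, S i) (∀ i, M i)
  choose n hn using fun i => (ne_top_iff _).1 (hM i).1
  have hle : ∀ i, n i ≤ ∑ j, n j := fun i => Finset.single_le_sum (fun j _ => Nat.zero_le (n j))
    (Finset.mem_univ i)
  have hid : HasInjectiveDimensionLT (ModuleCat.of (∀ i, S i) (∀ i, M i)) ((∑ j, n j) + 1) :=
    pi_id _ M fun i => hasInjectiveDimensionLT_of_ge _ _ _ (Nat.succ_le_succ (hle i))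
  have hp : Perp (∀ i, S i) (∀ i, M i) (∀ i, M i) := fun j => pi_perp j M fun i => (hM i).2
  have h1 := H (∀ i, S i) (∀ i, M i) ⟨(ne_top_iff _).2 ⟨_, hid⟩, hp⟩
    ⟨endPi k σ fun i => (he i).some⟩
  refine ⟨hM i, fun I _ _ _ hI => ?_⟩
  let _ : Module k I := Module.compHom I (algebraMap k (S i))
  have : IsScalarTower k (S i) I := IsScalarTower.of_algebraMap_smul fun _ _ => rfl
  have hIk : Module.Finite k I := Module.Finite.trans (S i) I
  let _ : Module k (InflPi S i I) := inferInstanceAs (Module k I)
  have : IsScalarTower k (∀ j, S j) (InflPi S i I) := ⟨fun t s x => by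
    change (t • s) i • InflPi.get x = t • (s i • InflPi.get x)
    rw [Pi.smul_apply, smul_assoc]⟩
  have : Module.Finite k (InflPi S i I) := hIk
  have : Module.Finite (∀ j, S j) (InflPi S i I) :=
    Module.Finite.of_restrictScalars_finite k (∀ j, S j) (InflPi S i I)
  obtain ⟨m, hm⟩ := h1.2 (InflPi S i I) (inflPi_injective i I hI)
  exact ⟨m, (cor_res i m _ hm).equiv (corInflPi i I)⟩

end Pool.Agent.Lib_helper21.SB
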