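import Mathlib

/-! Definitions: partial cotilting and cotilting modules. -/

open CategoryTheory CategoryTheory.Abelian

universe u

namespace Pool.Agent.Lib_helper21.SB

/-- The injective dimension of the left module `A` over `A`. -/
noncomputable def idLeft (A : Type u) [Ring A] : WithBot ℕ∞ :=
  injectiveDimension (ModuleCat.of A A)

/-- The injective dimension of the right module `A` over `A`. -/
noncomputable def idRight (A : Type u) [Ring A] : WithBot ℕ∞ :=
  injectiveDimension (ModuleCat.of Aᵐᵒᵖ A)

/-- `Ext^i(X, U) = 0` for all `i > 0`. -/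
def Perp (S X U : Type u) [Ring S] [AddCommGroup X] [Module S X] [AddCommGroup U]
    [Module S U] : Prop :=
  ∀ i : ℕ, Subsingleton (Ext (ModuleCat.of S X) (ModuleCat.of S U) (i + 1))

/-- `X` is a direct summand of a finite direct sum of copies of `M`. -/
def AddCl (S M X : Type u) [Ring S] [AddCommGroup M] [Module S M] [AddCommGroup X]
    [Module S X] : Prop :=
  ∃ (n : ℕ) (i : X →ₗ[S] (Fin n → M)) (p : (Fin n → M) →ₗ[S] X), ∀ x, p (i x) = x

/-- `U` has a resolution `0 → M_n → ⋯ → M_0 → U → 0` with all `M_i` in `add M`. -/
def Res (S M : Type u) [Ring S] [AddCommGroup M] [Module S M] :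
    ℕ → ∀ (U : Type u) [AddCommGroup U] [Module S U], Prop
  | 0, U, _, _ => AddCl S M U
  | n + 1, U, _, _ => ∃ (X : Type u) (_ : AddCommGroup X) (_ : Module S X) (f : X →ₗ[S] U),
      AddCl S M X ∧ Function.Surjective f ∧ Res S M n (LinearMap.ker f)

/-- `M` is partial cotilting: finite injective dimension, no self-extensions. -/
def PartialCotilting (S M : Type u) [Ring S] [AddCommGroup M] [Module S M] : Prop :=
  injectiveDimension (ModuleCat.of S M) ≠ ⊤ ∧ Perp S M M

/-- `M` is cotilting: moreover all f.g. injective modules have finite `add M`-resolutions. -/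
def Cotilting (S M : Type u) [Ring S] [AddCommGroup M] [Module S M] : Prop :=
  PartialCotilting S M ∧ ∀ (I : Type u) [AddCommGroup I] [Module S I] [Module.Finite S I],
    Module.Injective S I → ∃ n, Res S M n I

end Pool.Agent.Lib_helper21.SB
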