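import Pool.Agent.Lib_helper21.SB.One

/-! The two self-injective dimensions of the trivial extension `S ⋉ M`. -/

open CategoryTheory CategoryTheory.Abelian MulOpposite Pool.Agent.Lib_helper54.GSC

universe u

set_option linter.unusedSectionVars false

namespace Pool.Agent.Lib_helper21.SB

section
variable {S M : Type u} [Ring S] [AddCommGroup M] [Module S M] [Module Sᵐᵒᵖ M]
  [SMulCommClass S Sᵐᵒᵖ M]

/-- `Ann` of an injective module is injective. -/
theorem ann_injective {N : Type u} [AddCommGroup N] [Module (TrivSqZeroExt S M) N]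
    (hN : Module.Injective (TrivSqZeroExt S M) N) : Module.Injective S (Ann S M N) := by
  refine ⟨fun X Y _ _ _ _ f hf g => ?_⟩
  let f' : Infl S M X →ₗ[TrivSqZeroExt S M] Infl S M Y :=
    { toFun := fun x => Infl.mk S M Y (f (Infl.get x))
      map_add' := fun x y => map_add f (Infl.get x) (Infl.get y)
      map_smul' := fun a x => f.map_smul a.fst (Infl.get x) }
  let g' : Infl S M X →ₗ[TrivSqZeroExt S M] N :=
    { toFun := fun x => Ann.val S M (g (Infl.get x))
      map_add' := fun x y => congrArg (Ann.val S M) (map_add g (Infl.get x) (Infl.get y))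
      map_smul' := fun a x => by
        have h1 : Ann.val S M (g (Infl.get (a • x))) =
            (TrivSqZeroExt.inl a.fst : TrivSqZeroExt S M) • Ann.val S M (g (Infl.get x)) := by
          rw [← Ann.val_smul, ← g.map_smul]
          rfl
        rw [h1, RingHom.id_apply]
        conv_rhs => rw [← TrivSqZeroExt.inl_fst_add_inr_snd_eq a]
        rw [add_smul, Ann.kill, add_zero] }
  obtain ⟨h, hh⟩ := hN.out f' hf g'
  have hk : ∀ (y : Y) (m : M),
      (TrivSqZeroExt.inr m : TrivSqZeroExt S M) • h (Infl.mk S M Y y) = 0 := by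
    intro y m
    rw [← h.map_smul, Infl.smul_def, TrivSqZeroExt.fst_inr, zero_smul]
    exact map_zero h
  refine ⟨{ toFun := fun y => (⟨h (Infl.mk S M Y y), hk y⟩ : annSub S M N)
            map_add' := fun x y => Subtype.ext (map_add h (Infl.mk S M Y x) (Infl.mk S M Y y))
            map_smul' := fun s y => by
              apply Subtype.ext
              change h (Infl.mk S M Y (s • y)) =
                (TrivSqZeroExt.inl s : TrivSqZeroExt S M) • h (Infl.mk S M Y y)
              rw [← h.map_smul, Infl.smul_def, TrivSqZeroExt.fst_inl]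
              rfl }, fun x => Ann.ext (hh (Infl.mk S M X x))⟩

/-- `id_S Hom_A(S, N) ≤ id_A N` if `Ext_A^i(S, N) = 0` for `i > 0`. -/
theorem id_ann (n : ℕ) : ∀ (N : Type u) [AddCommGroup N] [Module (TrivSqZeroExt S M) N],
    Perp (TrivSqZeroExt S M) (Infl S M S) N →
    HasInjectiveDimensionLT (ModuleCat.of (TrivSqZeroExt S M) N) (n + 1) →
    HasInjectiveDimensionLT (ModuleCat.of S (Ann S M N)) (n + 1) := by
  induction n with
  | zero =>
    intro N _ _ _ h
    rw [zero_add, id_one_iff] at h ⊢
    exact ann_injective h
  | succ n ih =>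
    intro N _ _ hp h
    obtain ⟨I, _, _, f, hI, hf⟩ := exists_inj (TrivSqZeroExt S M) N
    have hex : Function.Exact f (LinearMap.range f).mkQ := LinearMap.exact_iff.2 (Submodule.ker_mkQ _)
    have hg : Function.Surjective (LinearMap.range f).mkQ := Submodule.mkQ_surjective _
    have hW : HasInjectiveDimensionLT
        (ModuleCat.of (TrivSqZeroExt S M) (I ⧸ LinearMap.range f)) (n + 1) :=
      ((cx_exact hex hf hg).hasInjectiveDimensionLT_X₃_iff n
        ((Module.injective_iff_injective_object _ I).1 hI)).2 h
    have h2 := ih _ (hp.shift hex hf hg hI) hW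
    have hg' := ann_surjective_of_lift (S := S) (M := M) _ (hp.lift hex hf hg)
    exact ((cx_exact (annMap_exact hex hf) (annMap_injective hf)
      hg').hasInjectiveDimensionLT_X₃_iff n
        ((Module.injective_iff_injective_object _ _).1 (ann_injective hI))).1 h2

theorem id_iff (hb : Function.Bijective (rho S M)) (hM : Perp S M M) (n : ℕ) :
    HasInjectiveDimensionLT (ModuleCat.of (TrivSqZeroExt S M) (TrivSqZeroExt S M)) n ↔
      HasInjectiveDimensionLT (ModuleCat.of S M) n := by
  cases n with
  | zero =>
    rw [hasInjectiveDimensionLT_zero_iff_isZero, hasInjectiveDimensionLT_zero_iff_isZero]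
    constructor
    · intro h
      have h1 : Subsingleton (TrivSqZeroExt S M) := ModuleCat.subsingleton_of_isZero h
      have : Subsingleton M := (TrivSqZeroExt.inr_injective (R := S) (M := M)).subsingleton
      exact ModuleCat.isZero_of_subsingleton _
    · intro h
      have h1 : Subsingleton M := ModuleCat.subsingleton_of_isZero h
      have h2 : Subsingleton S := hb.1.subsingleton
      have : Subsingleton (TrivSqZeroExt S M) := ⟨fun a b =>
        TrivSqZeroExt.ext (Subsingleton.elim _ _) (Subsingleton.elim _ _)⟩
      exact ModuleCat.isZero_of_subsingleton _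
  | succ n =>
    constructor
    · intro h
      exact id_of_equiv (annSelf hb.1).symm (n + 1)
        (id_ann n _ ((perp_co hM).equiv (coSelf hb).symm) h)
    · exact id_self hb hM

theorem idLeft_eq (hb : Function.Bijective (rho S M)) (hM : Perp S M M) :
    idLeft (TrivSqZeroExt S M) = injectiveDimension (ModuleCat.of S M) := by
  have h1 := id_iff hb hM
  unfold idLeft injectiveDimension
  simp only [h1]

/-- finite powers of `Co`. -/
def coPow (U : Type u) [AddCommGroup U] [Module S U] (n : ℕ) :
    (Fin n → Co S M U) ≃ₗ[TrivSqZeroExt S M] Co S M (Fin n → U) where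
  toFun y := ((fun j => (y j).1, LinearMap.pi fun j => (y j).2) : Co S M (Fin n → U))
  invFun x := fun j => ((x.1 j, (LinearMap.proj j) ∘ₗ x.2) : Co S M U)
  map_add' _ _ := rfl
  map_smul' _ _ := rfl
  left_inv _ := rfl
  right_inv _ := rfl

theorem co_projective (hb : Function.Bijective (rho S M)) {U : Type u} [AddCommGroup U]
    [Module S U] (h : AddCl S M U) : Module.Projective (TrivSqZeroExt S M) (Co S M U) := by
  obtain ⟨n, i, p, hip⟩ := h
  have h1 : AddCl (TrivSqZeroExt S M) (TrivSqZeroExt S M) (Co S M (Fin n → M)) :=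
    (AddCl.pow n).equiv ((LinearEquiv.piCongrRight fun _ => coSelf hb).trans (coPow M n))
  refine projective_of_addCl inferInstance (h1.retract (coMap i) (coMap p) fun x => ?_)
  apply Co.ext
  · exact hip _
  · intro m
    exact hip _

/-- an `add M`-resolution of `U` of length `n` gives `pd_A Co U ≤ n`. -/
theorem res_co (hb : Function.Bijective (rho S M)) (hM : Perp S M M) (n : ℕ) :
    ∀ (U : Type u) [AddCommGroup U] [Module S U], Res S M n U →
    Perp S M U ∧ HasProjectiveDimensionLT (ModuleCat.of (TrivSqZeroExt S M) (Co S M U))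
      (n + 1) := by
  induction n with
  | zero =>
    intro U _ _ h
    exact ⟨AddCl.perp h hM, by rw [zero_add, pd_one_iff]; exact co_projective hb h⟩
  | succ n ih =>
    intro U _ _ h
    obtain ⟨X, _, _, f, hX, hf, hr⟩ := h
    obtain ⟨h1, h2⟩ := ih _ hr
    have hex : Function.Exact (LinearMap.ker f).subtype f :=
      LinearMap.exact_iff.2 (Submodule.range_subtype _).symm
    have hi : Function.Injective (LinearMap.ker f).subtype := (LinearMap.ker f).injective_subtype
    refine ⟨Perp.right hex hi hf h1 (hX.perp hM), ?_⟩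
    have hP : Projective (cx (coMap_exact (M := M) hex hi)).X₂ :=
      (IsProjective.iff_projective (R := TrivSqZeroExt S M) (Co S M X)).1 (co_projective hb hX)
    exact ((cx_exact (coMap_exact (M := M) hex hi) (coMap_injective hi)
      (coMap_surjective hf (h1.lift hex hi hf))).hasProjectiveDimensionLT_X₃_iff n hP).2 h2

/-- a map of `S`-modules `J → I` gives a map of `A`-modules `J → Co I`. -/
def coAdj {J I : Type u} [AddCommGroup J] [Module (TrivSqZeroExt S M) J] [AddCommGroup I]
    [Module S I] (f : J →+ I)
    (hf : ∀ (s : S) (x : J), f ((TrivSqZeroExt.inl s : TrivSqZeroExt S M) • x) = s • f x) :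
    J →ₗ[TrivSqZeroExt S M] Co S M I where
  toFun x := ((f x,
    { toFun := fun m => f ((TrivSqZeroExt.inr m : TrivSqZeroExt S M) • x)
      map_add' := fun m m' => by rw [TrivSqZeroExt.inr_add, add_smul, map_add]
      map_smul' := fun s m => by
        rw [← TrivSqZeroExt.inl_mul_inr, mul_smul, hf, RingHom.id_apply] }) : Co S M I)
  map_add' x y := by
    apply Co.ext
    · exact map_add f x y
    · intro m
      change f _ = f _ + f _
      rw [smul_add, map_add]
  map_smul' a x := by
    apply Co.ext
    · change f (a • x) = a.fst • f x + f ((TrivSqZeroExt.inr a.snd : TrivSqZeroExt S M) • x)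
      rw [← hf, ← map_add, ← add_smul, TrivSqZeroExt.inl_fst_add_inr_snd_eq]
    · intro m
      change f ((TrivSqZeroExt.inr m : TrivSqZeroExt S M) • (a • x)) =
        f ((TrivSqZeroExt.inr (op a.fst • m) : TrivSqZeroExt S M) • x)
      rw [← mul_smul]
      congr 2
      apply TrivSqZeroExt.ext
      · simp
      · simp

end

section
variable (k : Type u) [Field k] {S M : Type u} [Ring S] [Algebra k S] [AddCommGroup M]
  [Module k M] [Module S M] [IsScalarTower k S M] [Module Sᵐᵒᵖ M]
  [SMulCommClass S Sᵐᵒᵖ M] [IsScalarTower k Sᵐᵒᵖ M]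

/-- the dictionary, right side. -/
theorem idRight_iff [Module.Finite k S] [Module.Finite S M]
    (hb : Function.Bijective (rho S M)) (hM : Perp S M M) :
    idRight (TrivSqZeroExt S M) ≠ ⊤ ↔ ∀ (I : Type u) [AddCommGroup I] [Module S I]
      [Module.Finite S I], Module.Injective S I → ∃ n, Res S M n I := by
  have hMk : Module.Finite k M := Module.Finite.trans S M
  have hA : Module.Finite k (TrivSqZeroExt S M) := inferInstanceAs (Module.Finite k (S × M))
  have hop := fin_op k (TrivSqZeroExt S M)
  constructor
  · intro h I _ _ _ hI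
    obtain ⟨m, hm⟩ := (ne_top_iff _).1 h
    exact ⟨m, res_of_gsc k hb hM hm I hI⟩
  · intro h
    refine (ne_top_iff _).2 (id_of_pd k
      (AlgEquiv.refl : (TrivSqZeroExt S M)ᵐᵒᵖ ≃ₐ[k] (TrivSqZeroExt S M)ᵐᵒᵖ) ?_
      (TrivSqZeroExt S M) (Module.Projective.of_equiv (opSelf _).symm))
    intro J _ _ _ hJ
    let _ : Module k J := Module.compHom J (algebraMap k (TrivSqZeroExt S M))
    have : IsScalarTower k (TrivSqZeroExt S M) J := IsScalarTower.of_algebraMap_smul fun _ _ => rfl
    have hJk : Module.Finite k J := Module.Finite.trans (TrivSqZeroExt S M) J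
    let _ : Module S J := Module.compHom J (TrivSqZeroExt.inlHom S M)
    have : IsScalarTower k S J := ⟨fun t s x => by
      change (TrivSqZeroExt.inl (t • s) : TrivSqZeroExt S M) • x =
        t • ((TrivSqZeroExt.inl s : TrivSqZeroExt S M) • x)
      rw [← smul_assoc, TrivSqZeroExt.inl_smul]⟩
    obtain ⟨I, _, _, _, _, hIk, f, hI, hf⟩ :=
      Pool.Agent.Lib_helper21.GSC.exists_injective (k := k) (B := S) J
    have hIf : Module.Finite S I := Module.Finite.of_restrictScalars_finite k S I
    obtain ⟨n, hn⟩ := h I hI
    have h1 := (res_co hb hM n I hn).2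
    let F : J →ₗ[TrivSqZeroExt S M] Co S M I :=
      coAdj (f : J →+ I) (fun s x => f.map_smul s x)
    have hF : Function.Injective F := fun x y hxy =>
      hf (congrArg (fun z : Co S M I => z.1) hxy)
    obtain ⟨r, hr⟩ := hJ.out F hF LinearMap.id
    refine ⟨n, ?_⟩
    have hret : Retract (ModuleCat.of (TrivSqZeroExt S M) J)
        (ModuleCat.of (TrivSqZeroExt S M) (Co S M I)) :=
      { i := ModuleCat.ofHom F
        r := ModuleCat.ofHom r
        retract := by
          apply ModuleCat.hom_ext
          exact LinearMap.ext hr }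
    exact hret.hasProjectiveDimensionLT (n + 1)

end

end Pool.Agent.Lib_helper21.SB
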