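import Pool.Agent.Lib_helper21.SB.Res

/-! The Gorenstein symmetry conjecture and partial cotilting modules `M` over `S` with
`End_S(M)^op = S`. -/

open CategoryTheory CategoryTheory.Abelian MulOpposite Pool.Agent.Lib_helper54.GSC

universe u

set_option linter.unusedSectionVars false

namespace Pool.Agent.Lib_helper21.SB

theorem ne_top_iff {C : Type*} [Category C] [Abelian C] (X : C) :
    injectiveDimension X ≠ ⊤ ↔ ∃ n, HasInjectiveDimensionLT X (n + 1) :=
  injectiveDimension_ne_top_iff X

section
variable (k : Type u) [Field k]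

theorem flat_flat {A B : Type u} [Ring A] [Algebra k A] [Ring B] [Algebra k B]
    (θ : A ≃ₐ[k] Bᵐᵒᵖ) : flat (flat θ) = θ := by
  ext a; rfl

/-- `A ≃ Aᵐᵒᵖ` as right modules -/
def opSelf (A : Type u) [Ring A] : A ≃ₗ[Aᵐᵒᵖ] Aᵐᵒᵖ where
  toFun := op
  invFun := unop
  map_add' _ _ := rfl
  map_smul' _ _ := rfl
  left_inv _ := rfl
  right_inv _ := rfl

theorem fin_op (A : Type u) [Ring A] [Algebra k A] [Module.Finite k A] :
    Module.Finite k Aᵐᵒᵖ := Module.Finite.equiv (MulOpposite.opLinearEquiv k : A ≃ₗ[k] Aᵐᵒᵖ)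

/-- if `id(A_A) ≤ m`, then f.d. injective left modules have projective dimension `≤ m`. -/
theorem pd_of_injective {A : Type u} [Ring A] [Algebra k A] [Module.Finite k A] {m : ℕ}
    (h : HasInjectiveDimensionLT (ModuleCat.of Aᵐᵒᵖ A) (m + 1)) (J : Type u) [AddCommGroup J]
    [Module k J] [Module A J] [IsScalarTower k A J] [Module.Finite k J]
    (hJ : Module.Injective A J) : HasProjectiveDimensionLT (ModuleCat.of A J) (m + 1) := by
  have hop := fin_op k A
  let θ : Aᵐᵒᵖ ≃ₐ[k] Aᵐᵒᵖ := AlgEquiv.refl
  have h1 : HasProjectiveDimensionLT (ModuleCat.of Aᵐᵒᵖ (D θ J)) (0 + 1) := by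
    have := (id_iff_pd (flat θ) 0 J).1 (by rw [zero_add, id_one_iff]; exact hJ)
    rw [flat_flat k θ] at this
    exact this
  rw [zero_add, pd_one_iff] at h1
  rw [pd_iff_id θ m J]
  exact id_of_projective (k := k) (id_of_equiv (opSelf A) (m + 1) h) (D θ J) h1

/-- if all f.g. injective left `B`-modules have finite projective dimension, then f.d. projective
modules over `A = B^op` have finite injective dimension. -/
theorem id_of_pd {A B : Type u} [Ring A] [Algebra k A] [Ring B] [Algebra k B]
    [Module.Finite k A] [Module.Finite k B] (θ : A ≃ₐ[k] Bᵐᵒᵖ)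
    (h : ∀ (I : Type u) [AddCommGroup I] [Module B I] [Module.Finite B I],
      Module.Injective B I → ∃ n, HasProjectiveDimensionLT (ModuleCat.of B I) (n + 1))
    (N : Type u) [AddCommGroup N] [Module k N] [Module A N] [IsScalarTower k A N]
    [Module.Finite k N] (hN : Module.Projective A N) :
    ∃ n, HasInjectiveDimensionLT (ModuleCat.of A N) (n + 1) := by
  have hI : Module.Injective B (D (flat θ) N) := by
    rw [← id_one_iff, ← zero_add 1]
    exact (pd_iff_id (flat θ) 0 N).1 (by rw [zero_add, pd_one_iff]; exact hN)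
  have hfin : Module.Finite B (D (flat θ) N) :=
    Module.Finite.of_restrictScalars_finite k B (D (flat θ) N)
  obtain ⟨n, hn⟩ := h (D (flat θ) N) hI
  exact ⟨n, (id_iff_pd θ n N).2 hn⟩

end

/-- `Ext^i(P, U) = 0` for projective `P`. -/
theorem perp_of_projective {S P U : Type u} [Ring S] [AddCommGroup P] [Module S P]
    [AddCommGroup U] [Module S U] (hP : Module.Projective S P) : Perp S P U := fun i => by
  have hJ : Projective (ModuleCat.of S P) := (IsProjective.iff_projective (R := S) P).1 hP
  exact ⟨fun a b => (Ext.eq_zero_of_projective a).trans (Ext.eq_zero_of_projective b).symm⟩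

theorem projective_of_addCl {S M X : Type u} [Ring S] [AddCommGroup M] [Module S M]
    [AddCommGroup X] [Module S X] (hM : Module.Projective S M) (h : AddCl S M X) :
    Module.Projective S X := by
  obtain ⟨n, i, p, hip⟩ := h
  have h1 : Module.Projective S (Fin n → M) := by
    rw [← pd_one_iff]
    exact pd_pi 1 n _ (fun _ => pd_one_iff.2 hM)
  exact Module.Projective.of_split i p (LinearMap.ext hip)

/-- `add P`-resolutions for projective `P`. -/
theorem pd_of_res {S P : Type u} [Ring S] [AddCommGroup P] [Module S P]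
    (hP : Module.Projective S P) (n : ℕ) : ∀ (U : Type u) [AddCommGroup U] [Module S U],
    Res S P n U → HasProjectiveDimensionLT (ModuleCat.of S U) (n + 1) := by
  induction n with
  | zero =>
    intro U _ _ h
    rw [zero_add, pd_one_iff]
    exact projective_of_addCl hP h
  | succ n ih =>
    intro U _ _ h
    obtain ⟨X, _, _, f, hX, hf, hr⟩ := h
    have hex : Function.Exact (LinearMap.ker f).subtype f :=
      LinearMap.exact_iff.2 (Submodule.range_subtype _).symm
    have hX' : Projective (cx hex).X₂ :=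
      (IsProjective.iff_projective (R := S) X).1 (projective_of_addCl hP hX)
    exact ((cx_exact hex (LinearMap.ker f).injective_subtype hf).hasProjectiveDimensionLT_X₃_iff
      n hX').2 (ih _ hr)

section
variable (k : Type u) [Field k] {S M : Type u} [Ring S] [Algebra k S] [AddCommGroup M]
  [Module k M] [Module S M] [IsScalarTower k S M] [Module Sᵐᵒᵖ M]
  [SMulCommClass S Sᵐᵒᵖ M] [IsScalarTower k Sᵐᵒᵖ M]

section
variable (U : Type u) [AddCommGroup U] [Module S U] [Module k U] [IsScalarTower k S U]

instance : Module k (Co S M U) := inferInstanceAs (Module k (U × (M →ₗ[S] U)))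

theorem Co.ksmul_fst (t : k) (x : Co S M U) : (t • x).1 = t • x.1 := rfl
theorem Co.ksmul_snd (t : k) (x : Co S M U) (m : M) : (t • x).2 m = t • x.2 m := rfl

instance : IsScalarTower k (TrivSqZeroExt S M) (Co S M U) where
  smul_assoc t a x := by
    apply Co.ext
    · rw [Co.smul_fst, Co.ksmul_fst, Co.smul_fst, TrivSqZeroExt.fst_smul,
        TrivSqZeroExt.snd_smul, smul_add, smul_assoc, LinearMap.map_smul_of_tower]
    · intro m
      rw [Co.smul_snd, Co.ksmul_snd, Co.smul_snd, TrivSqZeroExt.fst_smul, op_smul, smul_assoc,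
        LinearMap.map_smul_of_tower]

theorem finite_co [Module.Finite k M] [Module.Finite k U] : Module.Finite k (Co S M U) := by
  have h1 : Module.Finite k (M →ₗ[S] U) :=
    Module.Finite.of_injective (LinearMap.restrictScalarsₗ k S M U k)
      (LinearMap.restrictScalars_injective k)
  exact inferInstanceAs (Module.Finite k (U × (M →ₗ[S] U)))

end

/-- GSC for `S ⋉ M` gives: `M` is cotilting. -/
theorem res_of_gsc [Module.Finite k S] [Module.Finite S M] (hb : Function.Bijective (rho S M))
    (hM : Perp S M M) {m : ℕ}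
    (h : HasInjectiveDimensionLT (ModuleCat.of (TrivSqZeroExt S M)ᵐᵒᵖ (TrivSqZeroExt S M))
      (m + 1)) (I : Type u) [AddCommGroup I] [Module S I] [Module.Finite S I]
    (hI : Module.Injective S I) : Res S M m I := by
  let _ : Module k I := Module.compHom I (algebraMap k S)
  have : IsScalarTower k S I := IsScalarTower.of_algebraMap_smul fun _ _ => rfl
  have hMk : Module.Finite k M := Module.Finite.trans S M
  have hIk : Module.Finite k I := Module.Finite.trans S I
  have hA : Module.Finite k (TrivSqZeroExt S M) := inferInstanceAs (Module.Finite k (S × M))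
  have hN : IsNoetherianRing (TrivSqZeroExt S M) := by
    have : IsNoetherian k (TrivSqZeroExt S M) := inferInstance
    exact isNoetherian_of_tower k this
  have hCk : Module.Finite k (Co S M I) := finite_co k I
  have hC : Module.Finite (TrivSqZeroExt S M) (Co S M I) :=
    Module.Finite.of_restrictScalars_finite k (TrivSqZeroExt S M) (Co S M I)
  have h1 := pd_of_injective k h (Co S M I) (co_injective hI)
  exact (res_ann hb hM m (Co S M I) h1).2.equiv (annCo I).symm

/-- `id_A A ≤ id_S M`. -/
theorem id_self (hb : Function.Bijective (rho S M)) (hM : Perp S M M) {n : ℕ}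
    (h : HasInjectiveDimensionLT (ModuleCat.of S M) (n + 1)) :
    HasInjectiveDimensionLT (ModuleCat.of (TrivSqZeroExt S M) (TrivSqZeroExt S M)) (n + 1) :=
  id_of_equiv (coSelf hb).symm (n + 1) (id_co n M hM h)

end

/-- GSC ⇒ SB for cycles of length one. -/
theorem sb_of_gsc (k : Type u) [Field k]
    (H : ∀ (A : Type u) [Ring A] [Algebra k A] [Module.Finite k A],
      idLeft A ≠ ⊤ → idRight A ≠ ⊤)
    (S M : Type u) [Ring S] [Algebra k S] [Module.Finite k S] [AddCommGroup M] [Module k M]
    [Module S M] [IsScalarTower k S M] [Module.Finite S M] (hM : PartialCotilting S M)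
    (e : Nonempty (S ≃ₐ[k] (Module.End S M)ᵐᵒᵖ)) : Cotilting S M := by
  obtain ⟨e⟩ := e
  let _ : Module Sᵐᵒᵖ M := Module.compHom M (AlgEquiv.opComm e).toAlgHom.toRingHom
  have hop : ∀ (s : S) (m : M), op s • m = (unop (e s)) m := fun _ _ => rfl
  have : SMulCommClass S Sᵐᵒᵖ M := ⟨fun s t m => by
    obtain ⟨t⟩ := t
    exact ((unop (e t)).map_smul s m).symm⟩
  have : IsScalarTower k Sᵐᵒᵖ M := ⟨fun t s m => by
    obtain ⟨s⟩ := s
    change (unop (e (t • s))) m = t • (unop (e s)) m
    rw [map_smul e]
    rfl⟩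
  have hb : Function.Bijective (rho S M) := by
    have : rho S M = fun s => unop (e s) := rfl
    rw [this]
    exact MulOpposite.unop_bijective.comp e.bijective
  obtain ⟨n, hn⟩ := (ne_top_iff _).1 hM.1
  have hMk : Module.Finite k M := Module.Finite.trans S M
  have hA : Module.Finite k (TrivSqZeroExt S M) := inferInstanceAs (Module.Finite k (S × M))
  obtain ⟨m, hm⟩ := (ne_top_iff _).1
    (H (TrivSqZeroExt S M) ((ne_top_iff _).2 ⟨n, id_self hb hM.2 hn⟩))
  exact ⟨hM, fun I _ _ _ hI => ⟨m, res_of_gsc k hb hM.2 hm I hI⟩⟩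

/-- SB for cycles of length one ⇒ GSC. -/
theorem gsc_of_sb (k : Type u) [Field k]
    (H : ∀ (S M : Type u) [Ring S] [Algebra k S] [Module.Finite k S] [AddCommGroup M]
      [Module k M] [Module S M] [IsScalarTower k S M] [Module.Finite S M],
      PartialCotilting S M → Nonempty (S ≃ₐ[k] (Module.End S M)ᵐᵒᵖ) → Cotilting S M)
    (A : Type u) [Ring A] [Algebra k A] [Module.Finite k A] :
    idLeft A ≠ ⊤ ↔ idRight A ≠ ⊤ := by
  have hop := fin_op k A
  constructor
  · intro h
    have h1 := H A A ⟨h, perp_of_projective inferInstance⟩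
      ⟨AlgEquiv.opComm.symm (AlgEquiv.moduleEndSelf k)⟩
    refine (ne_top_iff _).2 (id_of_pd k (AlgEquiv.refl : Aᵐᵒᵖ ≃ₐ[k] Aᵐᵒᵖ) ?_ A ?_)
    · intro I _ _ _ hI
      obtain ⟨n, hn⟩ := h1.2 I hI
      exact ⟨n, pd_of_res inferInstance n I hn⟩
    · exact Module.Projective.of_equiv (opSelf A).symm
  · intro h
    have hA : Module.Projective Aᵐᵒᵖ A := Module.Projective.of_equiv (opSelf A).symm
    have hf : Module.Finite Aᵐᵒᵖ A := Module.Finite.equiv (opSelf A).symm
    have h1 := H Aᵐᵒᵖ A ⟨h, perp_of_projective hA⟩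
      ⟨AlgEquiv.op (AlgEquiv.moduleEndSelfOp k)⟩
    refine (ne_top_iff _).2 (id_of_pd k (flat (AlgEquiv.refl : Aᵐᵒᵖ ≃ₐ[k] Aᵐᵒᵖ)) ?_ A
      inferInstance)
    intro I _ _ _ hI
    obtain ⟨n, hn⟩ := h1.2 I hI
    exact ⟨n, pd_of_res hA n I hn⟩

end Pool.Agent.Lib_helper21.SB
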