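import Pool.Agent.Lib_helper21.SB.Defs
import Pool.Agent.Lib_helper21.GSC.H1
import Pool.Agent.Lib_helper21.GSC.B7

/-! `Ext^i(X, U) = 0` for all `i > 0`, and short exact sequences. -/

open CategoryTheory CategoryTheory.Abelian

universe u

namespace Pool.Agent.Lib_helper21.SB

theorem ext_one_of_lift.{w, v, u'} {C : Type u'} [Category.{v} C] [Abelian C] [HasExt.{w} C]
    {S : ShortComplex C} (hS : S.ShortExact) (hJ : Injective S.X₂) (X : C)
    (hl : ∀ φ : X ⟶ S.X₃, ∃ ψ : X ⟶ S.X₂, ψ ≫ S.g = φ) : Subsingleton (Ext X S.X₁ (0 + 1)) := by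
  have key : ∀ x : Ext X S.X₁ (0 + 1), x = 0 := by
    intro x
    obtain ⟨y, rfl⟩ := Ext.covariant_sequence_exact₁ X hS x
      (Ext.eq_zero_of_injective _) (rfl : 0 + 1 = 0 + 1)
    obtain ⟨φ, rfl⟩ := Ext.homEquiv₀.symm.surjective y
    obtain ⟨ψ, rfl⟩ := hl φ
    change (Ext.mk₀ _).comp _ _ = 0
    rw [← Ext.mk₀_comp_mk₀, Ext.comp_assoc_of_second_deg_zero,
      ShortComplex.ShortExact.comp_extClass, Ext.comp_zero]
  exact ⟨fun a b => (key a).trans (key b).symm⟩

section
variable {S : Type u} [Ring S] {X : Type u} [AddCommGroup X] [Module S X]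
  {U I W : Type u} [AddCommGroup U] [Module S U] [AddCommGroup I] [Module S I]
  [AddCommGroup W] [Module S W] {f : U →ₗ[S] I} {g : I →ₗ[S] W}

/-- the short complex of an exact pair of linear maps. -/
def cx (h : Function.Exact f g) : ShortComplex (ModuleCat.{u} S) :=
  ModuleCat.shortComplexOfCompEqZero f g h.linearMap_comp_eq_zero

theorem cx_exact (h : Function.Exact f g) (hf : Function.Injective f)
    (hg : Function.Surjective g) : (cx h).ShortExact :=
  ModuleCat.shortComplex_shortExact (cx h) h hf hg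

theorem Perp.shift (h : Function.Exact f g) (hf : Function.Injective f)
    (hg : Function.Surjective g) (hI : Module.Injective S I) (hU : Perp S X U) :
    Perp S X W := fun i =>
  GSC.ext_shift (cx_exact h hf hg) ((Module.injective_iff_injective_object S I).1 hI)
    (ModuleCat.of S X) i (hU (i + 1))

theorem Perp.lift (h : Function.Exact f g) (hf : Function.Injective f)
    (hg : Function.Surjective g) (hU : Perp S X U) (φ : X →ₗ[S] W) :
    ∃ ψ : X →ₗ[S] I, g ∘ₗ ψ = φ := by
  have h0 := hU 0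
  obtain ⟨y, hy⟩ := Ext.covariant_sequence_exact₃ (ModuleCat.of S X) (cx_exact h hf hg)
    (Ext.mk₀ (ModuleCat.ofHom φ : ModuleCat.of S X ⟶ (cx h).X₃)) (rfl : 0 + 1 = 1)
    (Subsingleton.elim (α := Ext (ModuleCat.of S X) (ModuleCat.of S U) (0 + 1)) _ _)
  obtain ⟨ψ, rfl⟩ := Ext.homEquiv₀.symm.surjective y
  refine ⟨ψ.hom, ?_⟩
  have h1 : ψ ≫ (cx h).g = ModuleCat.ofHom φ := Ext.homEquiv₀.symm.injective (by simpa using hy)
  exact congrArg ModuleCat.Hom.hom h1

theorem perp_of_lift (h : Function.Exact f g) (hf : Function.Injective f)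
    (hg : Function.Surjective g) (hI : Module.Injective S I)
    (hl : ∀ φ : X →ₗ[S] W, ∃ ψ : X →ₗ[S] I, g ∘ₗ ψ = φ) :
    Subsingleton (Ext (ModuleCat.of S X) (ModuleCat.of S U) (0 + 1)) :=
  ext_one_of_lift (cx_exact h hf hg) ((Module.injective_iff_injective_object S I).1 hI)
    (ModuleCat.of S X) fun φ => by
      obtain ⟨ψ, hψ⟩ := hl φ.hom
      exact ⟨ModuleCat.ofHom ψ, ModuleCat.hom_ext hψ⟩

theorem perp_step (h : Function.Exact f g) (hf : Function.Injective f)
    (hg : Function.Surjective g) (hI : Module.Injective S I) (i : ℕ)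
    (hW : Subsingleton (Ext (ModuleCat.of S X) (ModuleCat.of S W) (i + 1))) :
    Subsingleton (Ext (ModuleCat.of S X) (ModuleCat.of S U) (i + 1 + 1)) := by
  have hJ : Injective (cx h).X₂ := (Module.injective_iff_injective_object S I).1 hI
  have key : ∀ x : Ext (ModuleCat.of S X) (cx h).X₁ (i + 1 + 1), x = 0 := by
    intro x
    obtain ⟨y, rfl⟩ := Ext.covariant_sequence_exact₁ (ModuleCat.of S X) (cx_exact h hf hg) x
      (Ext.eq_zero_of_injective _) (rfl : i + 1 + 1 = i + 1 + 1)
    have hy : y = 0 :=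
      Subsingleton.elim (α := Ext (ModuleCat.of S X) (ModuleCat.of S W) (i + 1)) _ _
    rw [hy, Ext.zero_comp]
  exact ⟨fun a b => (key a).trans (key b).symm⟩

theorem perp_of_injective (hI : Module.Injective S I) : Perp S X I := fun i => by
  have hJ : Injective (ModuleCat.of S I) := (Module.injective_iff_injective_object S I).1 hI
  exact ⟨fun a b => (Ext.eq_zero_of_injective a).trans (Ext.eq_zero_of_injective b).symm⟩

/-- the third term. -/
theorem Perp.right (h : Function.Exact f g) (hf : Function.Injective f)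
    (hg : Function.Surjective g) (hU : Perp S X U) (hI : Perp S X I) : Perp S X W := by
  intro i
  have key : ∀ x : Ext (ModuleCat.of S X) (cx h).X₃ (i + 1), x = 0 := by
    intro x
    have h1 := hU (i + 1)
    have h2 := hI i
    obtain ⟨y, rfl⟩ := Ext.covariant_sequence_exact₃ (ModuleCat.of S X) (cx_exact h hf hg) x
      (rfl : i + 1 + 1 = i + 1 + 1)
      (Subsingleton.elim (α := Ext (ModuleCat.of S X) (ModuleCat.of S U) (i + 1 + 1)) _ _)
    have hy : y = 0 :=
      Subsingleton.elim (α := Ext (ModuleCat.of S X) (ModuleCat.of S I) (i + 1)) _ _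
    rw [hy, Ext.zero_comp]
  exact ⟨fun a b => (key a).trans (key b).symm⟩

/-- the middle term. -/
theorem Perp.mid (h : Function.Exact f g) (hf : Function.Injective f)
    (hg : Function.Surjective g) (hU : Perp S X U) (hW : Perp S X W) : Perp S X I := by
  intro i
  have key : ∀ x : Ext (ModuleCat.of S X) (cx h).X₂ (i + 1), x = 0 := by
    intro x
    have h1 := hU i
    have h2 := hW i
    obtain ⟨y, rfl⟩ := Ext.covariant_sequence_exact₂ (ModuleCat.of S X) (cx_exact h hf hg) x
      (Subsingleton.elim (α := Ext (ModuleCat.of S X) (ModuleCat.of S W) (i + 1)) _ _)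
    have hy : y = 0 :=
      Subsingleton.elim (α := Ext (ModuleCat.of S X) (ModuleCat.of S U) (i + 1)) _ _
    rw [hy, Ext.zero_comp]
  exact ⟨fun a b => (key a).trans (key b).symm⟩

theorem Perp.retract (hI : Perp S X I) (i : W →ₗ[S] I) (p : I →ₗ[S] W)
    (hip : ∀ w, p (i w) = w) : Perp S X W := by
  intro j
  have key : ∀ x : Ext (ModuleCat.of S X) (ModuleCat.of S W) (j + 1), x = 0 := by
    intro x
    have h1 : (ModuleCat.ofHom i ≫ ModuleCat.ofHom p : ModuleCat.of S W ⟶ ModuleCat.of S W) =
        𝟙 _ := by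
      apply ModuleCat.hom_ext
      exact LinearMap.ext hip
    have h2 := hI j
    have h3 : x.comp (Ext.mk₀ (ModuleCat.ofHom i)) (add_zero (j + 1)) = 0 :=
      Subsingleton.elim _ _
    rw [← Ext.comp_mk₀_id x, ← h1, ← Ext.mk₀_comp_mk₀, ← Ext.comp_assoc_of_third_deg_zero, h3,
      Ext.zero_comp]
  exact ⟨fun a b => (key a).trans (key b).symm⟩

theorem Perp.equiv (hI : Perp S X I) (e : I ≃ₗ[S] W) : Perp S X W :=
  hI.retract e.symm.toLinearMap e.toLinearMap e.apply_symm_apply

theorem Perp.prod (hU : Perp S X U) (hW : Perp S X W) : Perp S X (U × W) := by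
  have hex : Function.Exact (LinearMap.inl S U W) (LinearMap.snd S U W) :=
    LinearMap.exact_iff.mpr (LinearMap.ker_snd S U W)
  exact Perp.mid hex LinearMap.inl_injective LinearMap.snd_surjective hU hW

theorem perp_subsingleton [Subsingleton U] : Perp S X U := by
  refine perp_of_injective ⟨fun A B _ _ _ _ f hf g => ⟨0, fun x => Subsingleton.elim _ _⟩⟩

theorem Perp.pow (hU : Perp S X U) (n : ℕ) : Perp S X (Fin n → U) := by
  induction n with
  | zero => exact perp_subsingleton
  | succ n ih =>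
    exact (hU.prod ih).equiv (Fin.consLinearEquiv S (fun _ : Fin (n + 1) => U))

end

end Pool.Agent.Lib_helper21.SB
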