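import Pool.Agent.Lib_helper21.SB.One

/-! Products of algebras, and cycles of partial cotilting modules. -/

open CategoryTheory CategoryTheory.Abelian MulOpposite Pool.Agent.Lib_helper54.GSC

universe u

set_option linter.unusedSectionVars false

namespace Pool.Agent.Lib_helper21.SB

section
variable {ι : Type} [Fintype ι] [DecidableEq ι] {S : ι → Type u} [∀ i, Ring (S i)]

/-- the idempotent -/
def idem (S : ι → Type u) [∀ i, Ring (S i)] (i : ι) (s : S i) : ∀ j, S j := Pi.single i s

theorem idem_mul (i : ι) (s t : S i) : idem S i s * idem S i t = idem S i (s * t) := by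
  funext j
  by_cases h : j = i
  · subst h
    simp [idem]
  · simp [idem, h]

theorem idem_one_mul (i : ι) (s : ∀ j, S j) : idem S i 1 * s = idem S i (s i) := by
  funext j
  by_cases h : j = i
  · subst h
    simp [idem]
  · simp [idem, h]

theorem idem_add (i : ι) (s t : S i) : idem S i (s + t) = idem S i s + idem S i t := by
  funext j
  by_cases h : j = i
  · subst h
    simp [idem]
  · simp [idem, h]

theorem idem_zero (i : ι) : idem S i 0 = 0 := by
  funext j
  by_cases h : j = i
  · subst h
    simp [idem]
  · simp [idem, h]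

theorem idem_self (i : ι) (s : S i) : idem S i s i = s := by simp [idem]

/-- the corner of a module -/
def Cor (S : ι → Type u) [∀ i, Ring (S i)] (i : ι) (X : Type u) [AddCommGroup X]
    [Module (∀ j, S j) X] : Type u :=
  ({ carrier := {x | idem S i 1 • x = x}
     add_mem' := fun {a b} ha hb => by
       change idem S i 1 • (a + b) = a + b
       rw [smul_add, ha, hb]
     zero_mem' := smul_zero _
     neg_mem' := fun {a} ha => by
       change idem S i 1 • (-a) = -a
       rw [smul_neg, ha] } : AddSubgroup X)

section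
variable (i : ι) {X Y Z : Type u} [AddCommGroup X] [Module (∀ j, S j) X] [AddCommGroup Y]
  [Module (∀ j, S j) Y] [AddCommGroup Z] [Module (∀ j, S j) Z]

instance : AddCommGroup (Cor S i X) := inferInstanceAs (AddCommGroup (AddSubgroup.mk _ _))

/-- the inclusion -/
def Cor.val {i : ι} (x : Cor S i X) : X := Subtype.val x

theorem Cor.ext {i : ι} {x y : Cor S i X} (h : x.val = y.val) : x = y := Subtype.ext h

/-- an element of the corner -/
def Cor.mk (x : X) (h : idem S i 1 • x = x) : Cor S i X := ⟨x, h⟩

theorem Cor.prop {i : ι} (x : Cor S i X) : idem S i 1 • x.val = x.val := x.2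

theorem Cor.val_add {i : ι} (x y : Cor S i X) : (x + y).val = x.val + y.val := rfl

theorem Cor.val_zero {i : ι} : (0 : Cor S i X).val = 0 := rfl

instance : SMul (S i) (Cor S i X) :=
  ⟨fun s x => Cor.mk i (idem S i s • x.val) (by rw [← mul_smul, idem_mul, one_mul])⟩

theorem Cor.val_smul {i : ι} (s : S i) (x : Cor S i X) : (s • x).val = idem S i s • x.val := rfl

instance : Module (S i) (Cor S i X) where
  one_smul x := Cor.ext (by rw [Cor.val_smul, Cor.prop])
  mul_smul a b x := Cor.ext (by
    rw [Cor.val_smul, Cor.val_smul, Cor.val_smul, ← mul_smul, idem_mul])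
  smul_zero a := Cor.ext (by rw [Cor.val_smul, Cor.val_zero, smul_zero])
  smul_add a x y := Cor.ext (by
    rw [Cor.val_smul, Cor.val_add, Cor.val_add, smul_add, Cor.val_smul, Cor.val_smul])
  add_smul a b x := Cor.ext (by
    rw [Cor.val_smul, Cor.val_add, idem_add, add_smul, Cor.val_smul, Cor.val_smul])
  zero_smul x := Cor.ext (by rw [Cor.val_smul, idem_zero, zero_smul, Cor.val_zero])

/-- corners of maps -/
def corMap (g : X →ₗ[∀ j, S j] Y) : Cor S i X →ₗ[S i] Cor S i Y where
  toFun x := Cor.mk i (g x.val) (by rw [← g.map_smul, Cor.prop])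
  map_add' x y := Cor.ext (map_add g _ _)
  map_smul' s x := Cor.ext (g.map_smul _ _)

theorem corMap_val (g : X →ₗ[∀ j, S j] Y) (x : Cor S i X) : (corMap i g x).val = g x.val := rfl

/-- the projection to the corner -/
def corProj (x : X) : Cor S i X := Cor.mk i (idem S i 1 • x) (by
  rw [← mul_smul, idem_mul, one_mul])

theorem corProj_val (x : X) : (corProj (S := S) i x).val = idem S i 1 • x := rfl

theorem corProj_smul (s : ∀ j, S j) (x : X) :
    corProj (S := S) i (s • x) = s i • corProj i x := by
  apply Cor.ext
  rw [Cor.val_smul, corProj_val, corProj_val, ← mul_smul, ← mul_smul, idem_one_mul, idem_mul,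
    mul_one]

theorem corProj_add (x y : X) : corProj (S := S) i (x + y) = corProj i x + corProj i y := by
  apply Cor.ext
  rw [Cor.val_add, corProj_val, corProj_val, corProj_val, smul_add]

theorem corMap_injective {g : X →ₗ[∀ j, S j] Y} (hg : Function.Injective g) :
    Function.Injective (corMap i g) := fun _ _ h => Cor.ext (hg (congrArg Cor.val h))

theorem corMap_surjective {g : X →ₗ[∀ j, S j] Y} (hg : Function.Surjective g) :
    Function.Surjective (corMap i g) := by
  intro y
  obtain ⟨x, hx⟩ := hg y.val
  refine ⟨corProj i x, Cor.ext ?_⟩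
  rw [corMap_val, corProj_val, g.map_smul, hx, Cor.prop]

theorem corMap_exact {f : X →ₗ[∀ j, S j] Y} {g : Y →ₗ[∀ j, S j] Z} (h : Function.Exact f g) :
    Function.Exact (corMap i f) (corMap i g) := by
  intro y
  constructor
  · intro hy
    obtain ⟨x, hx⟩ := (h y.val).1 (congrArg Cor.val hy)
    refine ⟨corProj i x, Cor.ext ?_⟩
    rw [corMap_val, corProj_val, f.map_smul, hx, Cor.prop]
  · rintro ⟨x, rfl⟩
    exact Cor.ext ((h _).2 ⟨_, rfl⟩)

end

/-- an `S i`-module, as a module over the product -/
@[nolint unusedArguments]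
def InflPi (S : ι → Type u) [∀ i, Ring (S i)] (i : ι) (U : Type u) [AddCommGroup U]
    [Module (S i) U] : Type u := U

/-- to `InflPi` -/
def InflPi.mk (S : ι → Type u) [∀ i, Ring (S i)] (i : ι) {U : Type u} [AddCommGroup U]
    [Module (S i) U] (x : U) : InflPi S i U := x

/-- from `InflPi` -/
def InflPi.get {S : ι → Type u} [∀ i, Ring (S i)] {i : ι} {U : Type u} [AddCommGroup U]
    [Module (S i) U] (x : InflPi S i U) : U := x

section
variable (i : ι) (U : Type u) [AddCommGroup U] [Module (S i) U]

instance : AddCommGroup (InflPi S i U) := inferInstanceAs (AddCommGroup U)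

instance : SMul (∀ j, S j) (InflPi S i U) := ⟨fun s x => InflPi.mk S i (s i • InflPi.get x)⟩

theorem InflPi.smul_def (s : ∀ j, S j) (x : InflPi S i U) :
    s • x = InflPi.mk S i (s i • InflPi.get x) := rfl

instance : Module (∀ j, S j) (InflPi S i U) where
  one_smul x := one_smul (S i) (InflPi.get x)
  mul_smul a b x := mul_smul (a i) (b i) (InflPi.get x)
  smul_zero a := smul_zero (A := U) (a i)
  smul_add a x y := smul_add (a i) (InflPi.get x) (InflPi.get y)
  add_smul a b x := add_smul (a i) (b i) (InflPi.get x)
  zero_smul x := zero_smul (S i) (InflPi.get x)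

theorem inflPi_injective (hU : Module.Injective (S i) U) :
    Module.Injective (∀ j, S j) (InflPi S i U) := by
  refine ⟨fun X Y _ _ _ _ f hf g => ?_⟩
  let g1 : Cor S i X →ₗ[S i] U :=
    { toFun := fun x => InflPi.get (g x.val)
      map_add' := fun x y => congrArg InflPi.get (map_add g x.val y.val)
      map_smul' := fun s x => by
        rw [Cor.val_smul, g.map_smul, InflPi.smul_def, idem_self]
        rfl }
  obtain ⟨h1, hh⟩ := hU.out (corMap i f) (corMap_injective i hf) g1
  refine ⟨{ toFun := fun y => InflPi.mk S i (h1 (corProj i y))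
            map_add' := fun y y' => by
              rw [corProj_add, map_add]
              rfl
            map_smul' := fun s y => by
              rw [corProj_smul, map_smul]
              rfl }, fun x => ?_⟩
  change InflPi.mk S i (h1 (corProj i (f x))) = g x
  have h2 : corProj (S := S) i (f x) = corMap i f (corProj i x) :=
    Cor.ext (by rw [corMap_val, corProj_val, corProj_val, f.map_smul])
  rw [h2, hh]
  change InflPi.mk S i (InflPi.get (g (corProj i x).val)) = g x
  rw [corProj_val, g.map_smul, InflPi.smul_def, idem_self, one_smul]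
  rfl

/-- the corner of `InflPi` -/
def corInflPi : Cor S i (InflPi S i U) ≃ₗ[S i] U where
  toFun x := InflPi.get x.val
  invFun u := Cor.mk i (InflPi.mk S i u) (by
    rw [InflPi.smul_def, idem_self, one_smul]
    rfl)
  map_add' _ _ := rfl
  map_smul' s x := by
    change InflPi.get (idem S i s • x.val) = s • InflPi.get x.val
    rw [InflPi.smul_def, idem_self]
    rfl
  left_inv _ := rfl
  right_inv _ := rfl

end

section
variable {M U V W : ι → Type u} [∀ i, AddCommGroup (M i)] [∀ i, Module (S i) (M i)]
  [∀ i, AddCommGroup (U i)] [∀ i, Module (S i) (U i)]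
  [∀ i, AddCommGroup (V i)] [∀ i, Module (S i) (V i)]
  [∀ i, AddCommGroup (W i)] [∀ i, Module (S i) (W i)]

theorem pi_injective (hU : ∀ i, Module.Injective (S i) (U i)) :
    Module.Injective (∀ i, S i) (∀ i, U i) := by
  refine ⟨fun X Y _ _ _ _ f hf g => ?_⟩
  have h1 : ∀ i, ∃ h : Y →ₗ[∀ j, S j] InflPi S i (U i), ∀ x, h (f x) = InflPi.mk S i (g x i) :=
    fun i => (inflPi_injective i (U i) (hU i)).out f hf
      { toFun := fun x => InflPi.mk S i (g x i)
        map_add' := fun x y => by rw [map_add]; rfl
        map_smul' := fun s x => by rw [map_smul]; rfl }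
  choose h hh using h1
  refine ⟨{ toFun := fun y i => InflPi.get (h i y)
            map_add' := fun y y' => by
              funext i
              rw [map_add]
              rfl
            map_smul' := fun s y => by
              funext i
              rw [map_smul]
              rfl }, fun x => ?_⟩
  funext i
  change InflPi.get (h i (f x)) = g x i
  rw [hh]
  rfl

/-- products of maps -/
def piMap (g : ∀ i, U i →ₗ[S i] V i) : (∀ i, U i) →ₗ[∀ i, S i] (∀ i, V i) where
  toFun x i := g i (x i)
  map_add' _ _ := funext fun i => map_add (g i) _ _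
  map_smul' _ _ := funext fun i => (g i).map_smul _ _

theorem piMap_apply (g : ∀ i, U i →ₗ[S i] V i) (x : ∀ i, U i) (i : ι) :
    piMap g x i = g i (x i) := rfl

theorem piMap_injective {g : ∀ i, U i →ₗ[S i] V i} (hg : ∀ i, Function.Injective (g i)) :
    Function.Injective (piMap g) := fun _ _ h => funext fun i => hg i (congrFun h i)

theorem piMap_surjective {g : ∀ i, U i →ₗ[S i] V i} (hg : ∀ i, Function.Surjective (g i)) :
    Function.Surjective (piMap g) := by
  intro y
  choose x hx using fun i => hg i (y i)
  exact ⟨x, funext hx⟩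

theorem piMap_exact {f : ∀ i, U i →ₗ[S i] V i} {g : ∀ i, V i →ₗ[S i] W i}
    (h : ∀ i, Function.Exact (f i) (g i)) : Function.Exact (piMap f) (piMap g) := by
  intro y
  constructor
  · intro hy
    choose x hx using fun i => (h i (y i)).1 (congrFun hy i)
    exact ⟨x, funext hx⟩
  · rintro ⟨x, rfl⟩
    exact funext fun i => (h i _).2 ⟨_, rfl⟩

/-- the components of a map -/
def comp (φ : (∀ i, U i) →ₗ[∀ i, S i] (∀ i, V i)) (i : ι) : U i →ₗ[S i] V i where
  toFun u := φ (Pi.single i u) i
  map_add' u v := by rw [Pi.single_add, map_add]; rfl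
  map_smul' s u := by
    have h1 : (Pi.single i (s • u) : ∀ i, U i) = idem S i s • Pi.single i u := by
      funext j
      by_cases h : j = i
      · subst h
        simp [idem]
      · simp [idem, h]
    rw [h1, map_smul, Pi.smul_apply', idem_self]
    rfl

theorem piMap_comp (φ : (∀ i, U i) →ₗ[∀ i, S i] (∀ i, V i)) : piMap (comp φ) = φ := by
  apply LinearMap.ext
  intro x
  funext i
  change φ (Pi.single i (x i)) i = φ x i
  have h1 : (Pi.single i (x i) : ∀ i, U i) = idem S i 1 • x := by
    funext j
    by_cases h : j = i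
    · subst h
      simp [idem]
    · simp [idem, h]
  rw [h1, map_smul, Pi.smul_apply', idem_self, one_smul]

theorem comp_piMap (g : ∀ i, U i →ₗ[S i] V i) (i : ι) : comp (piMap g) i = g i := by
  apply LinearMap.ext
  intro u
  change g i ((Pi.single i u : ∀ i, U i) i) = g i u
  rw [Pi.single_eq_same]

theorem pi_lift {g : ∀ i, U i →ₗ[S i] V i}
    (hg : ∀ i, ∀ φ : M i →ₗ[S i] V i, ∃ ψ : M i →ₗ[S i] U i, g i ∘ₗ ψ = φ)
    (φ : (∀ i, M i) →ₗ[∀ i, S i] (∀ i, V i)) :
    ∃ ψ : (∀ i, M i) →ₗ[∀ i, S i] (∀ i, U i), piMap g ∘ₗ ψ = φ := by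
  choose ψ hψ using fun i => hg i (comp φ i)
  refine ⟨piMap ψ, ?_⟩
  rw [← piMap_comp φ]
  apply LinearMap.ext
  intro x
  funext i
  exact LinearMap.congr_fun (hψ i) (x i)

end

theorem exists_inj_family (U : ι → Type u) [∀ i, AddCommGroup (U i)] [∀ i, Module (S i) (U i)] :
    ∃ (I : ι → Type u) (_ : ∀ i, AddCommGroup (I i)) (_ : ∀ i, Module (S i) (I i))
      (f : ∀ i, U i →ₗ[S i] I i), (∀ i, Module.Injective (S i) (I i)) ∧
        ∀ i, Function.Injective (f i) := by
  choose I h1 h2 f h3 h4 using fun i => exists_inj (S i) (U i)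
  exact ⟨I, h1, h2, f, h3, h4⟩

theorem pi_perp {M : ι → Type u} [∀ i, AddCommGroup (M i)] [∀ i, Module (S i) (M i)] (n : ℕ) :
    ∀ (U : ι → Type u) [∀ i, AddCommGroup (U i)] [∀ i, Module (S i) (U i)],
      (∀ i, Perp (S i) (M i) (U i)) →
      Subsingleton (Ext (ModuleCat.of (∀ i, S i) (∀ i, M i))
        (ModuleCat.of (∀ i, S i) (∀ i, U i)) (n + 1)) := by
  induction n with
  | zero =>
    intro U _ _ hp
    obtain ⟨I, _, _, f, hI, hf⟩ := exists_inj_family (S := S) U
    have hex : ∀ i, Function.Exact (f i) (LinearMap.range (f i)).mkQ :=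
      fun i => LinearMap.exact_iff.2 (Submodule.ker_mkQ _)
    have hg : ∀ i, Function.Surjective (LinearMap.range (f i)).mkQ :=
      fun i => Submodule.mkQ_surjective _
    exact perp_of_lift (piMap_exact hex) (piMap_injective hf) (piMap_surjective hg)
      (pi_injective hI) (pi_lift fun i => (hp i).lift (hex i) (hf i) (hg i))
  | succ n ih =>
    intro U _ _ hp
    obtain ⟨I, _, _, f, hI, hf⟩ := exists_inj_family (S := S) U
    have hex : ∀ i, Function.Exact (f i) (LinearMap.range (f i)).mkQ :=
      fun i => LinearMap.exact_iff.2 (Submodule.ker_mkQ _)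
    have hg : ∀ i, Function.Surjective (LinearMap.range (f i)).mkQ :=
      fun i => Submodule.mkQ_surjective _
    exact perp_step (piMap_exact hex) (piMap_injective hf) (piMap_surjective hg)
      (pi_injective hI) n (ih _ fun i => (hp i).shift (hex i) (hf i) (hg i) (hI i))

theorem pi_id (n : ℕ) :
    ∀ (U : ι → Type u) [∀ i, AddCommGroup (U i)] [∀ i, Module (S i) (U i)],
      (∀ i, HasInjectiveDimensionLT (ModuleCat.of (S i) (U i)) (n + 1)) →
      HasInjectiveDimensionLT (ModuleCat.of (∀ i, S i) (∀ i, U i)) (n + 1) := by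
  induction n with
  | zero =>
    intro U _ _ h
    rw [zero_add, id_one_iff]
    exact pi_injective fun i => id_one_iff.1 (h i)
  | succ n ih =>
    intro U _ _ h
    obtain ⟨I, _, _, f, hI, hf⟩ := exists_inj_family (S := S) U
    have hex : ∀ i, Function.Exact (f i) (LinearMap.range (f i)).mkQ :=
      fun i => LinearMap.exact_iff.2 (Submodule.ker_mkQ _)
    have hg : ∀ i, Function.Surjective (LinearMap.range (f i)).mkQ :=
      fun i => Submodule.mkQ_surjective _
    have hW : ∀ i, HasInjectiveDimensionLT
        (ModuleCat.of (S i) (I i ⧸ LinearMap.range (f i))) (n + 1) := fun i =>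
      ((cx_exact (hex i) (hf i) (hg i)).hasInjectiveDimensionLT_X₃_iff n
        ((Module.injective_iff_injective_object (S i) (I i)).1 (hI i))).2 (h i)
    exact ((cx_exact (piMap_exact hex) (piMap_injective hf)
      (piMap_surjective hg)).hasInjectiveDimensionLT_X₃_iff n
        ((Module.injective_iff_injective_object _ _).1 (pi_injective hI))).1 (ih _ hW)

section
variable {M : ι → Type u} [∀ i, AddCommGroup (M i)] [∀ i, Module (S i) (M i)] (i : ι)

theorem cor_addCl {X : Type u} [AddCommGroup X] [Module (∀ j, S j) X]
    (h : AddCl (∀ j, S j) (∀ j, M j) X) : AddCl (S i) (M i) (Cor S i X) := by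
  obtain ⟨n, a, p, hap⟩ := h
  let a' : Cor S i X →ₗ[S i] (Fin n → M i) :=
    { toFun := fun x j => a x.val j i
      map_add' := fun x y => by
        funext j
        rw [Cor.val_add, map_add]
        rfl
      map_smul' := fun s x => by
        funext j
        rw [Cor.val_smul, map_smul, Pi.smul_apply, Pi.smul_apply', idem_self]
        rfl }
  have hs : ∀ (s : S i) (y : Fin n → M i),
      (fun j => (Pi.single i (s • y j) : ∀ i, M i)) =
        idem S i s • (fun j => (Pi.single i (y j) : ∀ i, M i)) := by
    intro s y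
    funext j l
    by_cases h : l = i
    · subst h
      simp [idem]
    · simp [idem, h]
  let p' : (Fin n → M i) →ₗ[S i] Cor S i X :=
    { toFun := fun y => Cor.mk i (p fun j => Pi.single i (y j)) (by
        rw [← p.map_smul, ← hs]
        simp only [one_smul])
      map_add' := fun x y => by
        apply Cor.ext
        change p _ = p _ + p _
        rw [← map_add]
        congr 1
        funext j
        exact Pi.single_add i _ _
      map_smul' := fun s x => by
        apply Cor.ext
        change p (fun j => Pi.single i (s • x j)) = idem S i s • p _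
        rw [← p.map_smul, hs] }
  refine ⟨n, a', p', fun x => ?_⟩
  apply Cor.ext
  change p (fun j => Pi.single i (a x.val j i)) = x.val
  have h1 : (fun j => (Pi.single i (a x.val j i) : ∀ i, M i)) = idem S i 1 • a x.val := by
    funext j l
    by_cases h : l = i
    · subst h
      simp [idem]
    · simp [idem, h]
  rw [h1, map_smul, hap, Cor.prop]

theorem cor_res (n : ℕ) : ∀ (U : Type u) [AddCommGroup U] [Module (∀ j, S j) U],
    Res (∀ j, S j) (∀ j, M j) n U → Res (S i) (M i) n (Cor S i U) := by
  induction n with
  | zero =>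
    intro U _ _ h
    exact cor_addCl i h
  | succ n ih =>
    intro U _ _ h
    obtain ⟨X, _, _, f, hX, hf, hr⟩ := h
    have hex : Function.Exact (LinearMap.ker f).subtype f :=
      LinearMap.exact_iff.2 (Submodule.range_subtype _).symm
    exact Res.step (corMap_exact i hex) (corMap_injective i (LinearMap.ker f).injective_subtype)
      (corMap_surjective i hf) (cor_addCl i hX) (ih _ hr)

end

end

end Pool.Agent.Lib_helper21.SB
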