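import Pool.Agent.Lib_helper21.SB.Ann

/-! Resolutions by `add M`. -/

open CategoryTheory CategoryTheory.Abelian MulOpposite

universe u

set_option linter.unusedSectionVars false

namespace Pool.Agent.Lib_helper21.SB

section
variable {S M : Type u} [Ring S] [AddCommGroup M] [Module S M]
  {X Y U V : Type u} [AddCommGroup X] [Module S X] [AddCommGroup Y] [Module S Y]
  [AddCommGroup U] [Module S U] [AddCommGroup V] [Module S V]

theorem AddCl.retract (h : AddCl S M X) (i : Y →ₗ[S] X) (p : X →ₗ[S] Y)
    (hip : ∀ y, p (i y) = y) : AddCl S M Y := by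
  obtain ⟨n, j, q, hjq⟩ := h
  refine ⟨n, j ∘ₗ i, p ∘ₗ q, fun y => ?_⟩
  change p (q (j (i y))) = y
  rw [hjq, hip]

theorem AddCl.equiv (h : AddCl S M X) (e : X ≃ₗ[S] Y) : AddCl S M Y :=
  h.retract e.symm.toLinearMap e.toLinearMap e.apply_symm_apply

theorem AddCl.pow (n : ℕ) : AddCl S M (Fin n → M) := ⟨n, LinearMap.id, LinearMap.id, fun _ => rfl⟩

theorem AddCl.perp {Z : Type u} [AddCommGroup Z] [Module S Z] (h : AddCl S M X)
    (hM : Perp S Z M) : Perp S Z X := by
  obtain ⟨n, i, p, hip⟩ := h
  exact (hM.pow n).retract i p hip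

theorem Res.equiv {n : ℕ} : ∀ {U V : Type u} [AddCommGroup U] [Module S U] [AddCommGroup V]
    [Module S V], Res S M n U → (U ≃ₗ[S] V) → Res S M n V := by
  induction n with
  | zero =>
    intro U V _ _ _ _ h e
    exact AddCl.equiv h e
  | succ n ih =>
    intro U V _ _ _ _ h e
    obtain ⟨X, _, _, f, hX, hf, hr⟩ := h
    refine ⟨X, inferInstance, inferInstance, e.toLinearMap ∘ₗ f, hX, e.surjective.comp hf, ?_⟩
    have hk : LinearMap.ker (e.toLinearMap ∘ₗ f) = LinearMap.ker f := by
      ext x
      simp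
    exact ih hr (LinearEquiv.ofEq _ _ hk.symm)

/-- a short exact sequence `0 → K → X → U → 0` with `X` in `add M` and `K` of resolution
length `≤ n`. -/
theorem Res.step {n : ℕ} {f : V →ₗ[S] X} {g : X →ₗ[S] U} (h : Function.Exact f g)
    (hf : Function.Injective f) (hg : Function.Surjective g) (hX : AddCl S M X)
    (hV : Res S M n V) : Res S M (n + 1) U := by
  refine ⟨X, inferInstance, inferInstance, g, hX, hg, ?_⟩
  have e : V ≃ₗ[S] LinearMap.ker g :=
    (LinearEquiv.ofInjective f hf).trans (LinearEquiv.ofEq _ _ (LinearMap.exact_iff.1 h).symm)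
  exact hV.equiv e

end

section
variable {S M : Type u} [Ring S] [AddCommGroup M] [Module S M] [Module Sᵐᵒᵖ M]
  [SMulCommClass S Sᵐᵒᵖ M]

/-- `Ann A = M` if `S` acts faithfully on `M` from the right. -/
noncomputable def annSelf (hb : Function.Injective (rho S M)) :
    M ≃ₗ[S] Ann S M (TrivSqZeroExt S M) :=
  LinearEquiv.ofBijective
    ({ toFun := fun m => (⟨TrivSqZeroExt.inr m, fun m' => TrivSqZeroExt.inr_mul_inr S m' m⟩ :
        annSub S M (TrivSqZeroExt S M))
       map_add' := fun a b => Subtype.ext (TrivSqZeroExt.inr_add S a b)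
       map_smul' := fun s a => Subtype.ext (TrivSqZeroExt.inl_mul_inr s a).symm } :
      M →ₗ[S] Ann S M (TrivSqZeroExt S M))
    ⟨fun a b h => TrivSqZeroExt.inr_injective (congrArg (Ann.val S M) h), fun x => by
      have h1 : (Ann.val S M x).fst = 0 := by
        apply hb
        rw [rho_zero]
        ext m
        have h2 := congrArg TrivSqZeroExt.snd (Ann.kill x m)
        rw [smul_eq_mul, TrivSqZeroExt.snd_mul, TrivSqZeroExt.fst_inr, zero_smul, zero_add,
          TrivSqZeroExt.snd_inr] at h2
        exact h2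
      refine ⟨(Ann.val S M x).snd, Ann.ext ?_⟩
      change TrivSqZeroExt.inr (Ann.val S M x).snd = Ann.val S M x
      apply TrivSqZeroExt.ext
      · rw [h1, TrivSqZeroExt.fst_inr]
      · rw [TrivSqZeroExt.snd_inr]⟩

/-- `Ann` commutes with finite powers. -/
def annPow (N : Type u) [AddCommGroup N] [Module (TrivSqZeroExt S M) N] (n : ℕ) :
    Ann S M (Fin n → N) ≃ₗ[S] (Fin n → Ann S M N) where
  toFun x := fun j => (⟨Ann.val S M x j, fun m => congrFun (Ann.kill x m) j⟩ : annSub S M N)
  invFun y := (⟨fun j => Ann.val S M (y j), fun m => funext fun j => Ann.kill (y j) m⟩ :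
    annSub S M (Fin n → N))
  map_add' _ _ := rfl
  map_smul' _ _ := rfl
  left_inv _ := rfl
  right_inv _ := rfl

theorem addCl_ann (hb : Function.Injective (rho S M)) {N : Type u} [AddCommGroup N]
    [Module (TrivSqZeroExt S M) N] (h : AddCl (TrivSqZeroExt S M) (TrivSqZeroExt S M) N) :
    AddCl S M (Ann S M N) := by
  obtain ⟨n, i, p, hip⟩ := h
  refine ((AddCl.pow n).equiv (((annPow (TrivSqZeroExt S M) n).trans
    (LinearEquiv.piCongrRight fun _ => (annSelf hb).symm)).symm)).retract (annMap i) (annMap p) ?_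
  intro y
  apply Ann.ext
  rw [annMap_val, annMap_val, hip]

/-- f.g. projective modules are in `add A`. -/
theorem addCl_of_projective {A P : Type u} [Ring A] [AddCommGroup P] [Module A P]
    [Module.Finite A P] (hP : Module.Projective A P) : AddCl A A P := by
  obtain ⟨n, f, hf⟩ := Module.Finite.exists_fin' A P
  obtain ⟨s, hs⟩ := Module.projective_lifting_property f LinearMap.id hf
  exact ⟨n, s, f, fun x => LinearMap.congr_fun hs x⟩

/-- (5): if `pd N ≤ n`, then `Ext_A^i(S, N) = 0` for `i > 0` and `Hom_A(S, N)` has an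
`add M`-resolution of length `n`. -/
theorem res_ann [IsNoetherianRing (TrivSqZeroExt S M)] (hb : Function.Bijective (rho S M))
    (hM : Perp S M M) (n : ℕ) : ∀ (N : Type u) [AddCommGroup N] [Module (TrivSqZeroExt S M) N]
    [Module.Finite (TrivSqZeroExt S M) N],
    HasProjectiveDimensionLT (ModuleCat.of (TrivSqZeroExt S M) N) (n + 1) →
    Perp (TrivSqZeroExt S M) (Infl S M S) N ∧ Res S M n (Ann S M N) := by
  have hA : Perp (TrivSqZeroExt S M) (Infl S M S) (TrivSqZeroExt S M) :=
    (perp_co hM).equiv (coSelf hb).symm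
  induction n with
  | zero =>
    intro N _ _ _ h
    rw [zero_add, Pool.Agent.Lib_helper54.GSC.pd_one_iff] at h
    have h1 := addCl_of_projective h
    exact ⟨h1.perp hA, addCl_ann hb.1 h1⟩
  | succ n ih =>
    intro N _ _ _ h
    obtain ⟨d, g, hg⟩ := Module.Finite.exists_fin' (TrivSqZeroExt S M) N
    have hex : Function.Exact (LinearMap.ker g).subtype g :=
      LinearMap.exact_iff.2 (Submodule.range_subtype _).symm
    have hf : Function.Injective (LinearMap.ker g).subtype := (LinearMap.ker g).injective_subtype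
    have hK : HasProjectiveDimensionLT
        (ModuleCat.of (TrivSqZeroExt S M) (LinearMap.ker g)) (n + 1) := by
      have hP : Projective (cx hex).X₂ := (IsProjective.iff_projective (R := TrivSqZeroExt S M)
        (Fin d → TrivSqZeroExt S M)).1 inferInstance
      exact ((cx_exact hex hf hg).hasProjectiveDimensionLT_X₃_iff n hP).1 h
    have hfin : Module.Finite (TrivSqZeroExt S M) (LinearMap.ker g) :=
      Module.IsNoetherian.finite _ _
    obtain ⟨h1, h2⟩ := ih (LinearMap.ker g) hK
    have h3 : Perp (TrivSqZeroExt S M) (Infl S M S) (Fin d → TrivSqZeroExt S M) := hA.pow d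
    refine ⟨Perp.right hex hf hg h1 h3, ?_⟩
    exact Res.step (annMap_exact hex hf) (annMap_injective hf)
      (ann_surjective_of_lift g (h1.lift hex hf hg)) (addCl_ann hb.1 (AddCl.pow d)) h2

end

end Pool.Agent.Lib_helper21.SB
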